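import Pool.Agent.SMT.PAR

/-!
SOS: one-pass streaming algorithms which output a number (MP_8d7caf_lc).  Definitions.

The geometry `SMG.Geo`, the certificates `SMT.TCert` and the roles `SMT.TRoles` are those of SMG and
SMT.  The twin bit of a vertex is replaced by an element of a large finite group `Γ`, and the switch
bit of a slot by an element of `Γ`.  Phase `i` consists of `|Γ|` layers; the layer `τ` contains for
each slot the edge `(x, a, τ) - (x', b, W)` where `W` is the letter of the slot.  If the letters do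
not depend on `τ`, the edges of a slot form a star; if the letter is `T + τ`, they form a perfect
matching.
-/

namespace SOS

open SMG

/-! ### The streaming model -/

/-- A deterministic one-pass algorithm with `b` bits of memory which outputs a number. -/
structure NAlg (V : Type) (b : ℕ) where
  init : Fin (2 ^ b)
  step : ℕ → Fin (2 ^ b) → Sym2 V → Fin (2 ^ b)
  out : ℕ → Fin (2 ^ b) → ℝ

/-- Memory after reading a list of edges, starting at time `t` with memory `m`. -/
def NAlg.runFrom {V : Type} {b : ℕ} (A : NAlg V b) : ℕ → Fin (2 ^ b) → List (Sym2 V) → Fin (2 ^ b)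
  | _, m, [] => m
  | t, m, e :: l => A.runFrom (t + 1) (A.step t m e) l

/-- The number which the algorithm outputs after reading the whole stream. -/
def NAlg.output {V : Type} {b : ℕ} (A : NAlg V b) (σ : List (Sym2 V)) : ℝ :=
  A.out σ.length (A.runFrom 0 A.init σ)

/-! ### Vertices, slots and words -/

/-- Main vertices: position, type, copy. -/
abbrev Vx (Pos T Γ : Type) := Pos × T × Γ

/-- All vertices: main vertices and their pendants. -/
abbrev VV (Pos T Γ : Type) := Vx Pos T Γ ⊕ Vx Pos T Γ

/-- The edge between two main vertices. -/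
def edg {Pos T Γ : Type} (x : Pos) (a : T) (τ : Γ) (x' : Pos) (b : T) (τ' : Γ) :
    Sym2 (VV Pos T Γ) := s(Sum.inl (x, a, τ), Sum.inl (x', b, τ'))

/-- The slots of one direction: left position, left type, arc coordinate of the right position,
right type. -/
abbrev KK (Pos T : Type) (N D : ℕ) := Pos × T × (Fin N → ZMod D) × T

/-- Words: a letter for each slot of each direction. -/
abbrev WW (Pos Dir T : Type) (N D : ℕ) (Γ : Type) := Dir × KK Pos T N D → Γ

/-- The parameter space of the hard distribution: special directions and base words. -/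
abbrev Par (Pos Dir T : Type) (N D : ℕ) (Γ : Type) :=
  (Fin N → Dir) × (Fin N → WW Pos Dir T N D Γ)

/-- The layers (phase, copy) in their order. -/
noncomputable def LL (N : ℕ) (Γ : Type) [Fintype Γ] : List (Fin N × Γ) :=
  (List.finRange N).flatMap (fun i => (Finset.univ : Finset Γ).toList.map (fun τ => (i, τ)))

section
variable {Pos Dir T U Γ : Type} {N D : ℕ}

/-- The key of a slot. -/
def key (G : Geo Pos Dir (Fin N → ZMod D)) (p : Dir) (j : JJ Pos T) : KK Pos T N D :=
  (j.1.1, j.1.2, G.arc p j.2.1, j.2.2)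

open Classical in
/-- The edges of the layer `τ` of phase `i` with the word `W`. -/
noncomputable def layerList [Fintype Pos] [Fintype Dir] [Fintype T] (C : SMT.TCert T U N)
    (G : Geo Pos Dir (Fin N → ZMod D)) (R : SMT.TRoles N D U C.cell)
    (P : Fin N → Dir) (i : ℕ) (τ : Γ) (W : WW Pos Dir T N D Γ) : List (Sym2 (VV Pos T Γ)) :=
  ((Finset.univ : Finset (Dir × JJ Pos T)).filter
    (fun s => SMT.slotOK C G R P i s.1 s.2)).toList.map
    (fun s => edg s.2.1.1 s.2.1.2 τ s.2.2.1 s.2.2.2 (W (s.1, key G s.1 s.2)))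

open Classical in
/-- The closed vertices: those of bad positions, and those whose type is not open. -/
noncomputable def Zset [Fintype Pos] [Fintype T] [Fintype Γ] (C : SMT.TCert T U N)
    (G : Geo Pos Dir (Fin N → ZMod D)) (R : SMT.TRoles N D U C.cell)
    (P : Fin N → Dir) : Finset (Vx Pos T Γ) :=
  Finset.univ.filter (fun v => (∃ l, ¬ G.good (P l) v.1) ∨ ¬ C.opn (SMT.unitOf C G R P v.1) v.2.1)

/-- The pendant edges. -/
noncomputable def pendList [Fintype Pos] [Fintype T] [Fintype Γ] (C : SMT.TCert T U N)
    (G : Geo Pos Dir (Fin N → ZMod D)) (R : SMT.TRoles N D U C.cell)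
    (P : Fin N → Dir) : List (Sym2 (VV Pos T Γ)) :=
  (Zset (Γ := Γ) C G R P).toList.map (fun v => s(Sum.inl v, Sum.inr v))

/-- The stream with the words `X i τ` (layer `τ` of phase `i`). -/
noncomputable def stream [Fintype Pos] [Fintype Dir] [Fintype T] [Fintype Γ] (C : SMT.TCert T U N)
    (G : Geo Pos Dir (Fin N → ZMod D)) (R : SMT.TRoles N D U C.cell)
    (P : Fin N → Dir) (X : Fin N → Γ → WW Pos Dir T N D Γ) : List (Sym2 (VV Pos T Γ)) :=
  (LL N Γ).flatMap (fun q => layerList C G R P (q.1 : ℕ) q.2 (X q.1 q.2)) ++ pendList C G R P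

/-- The words `Y i + c τ`. -/
def canon [Add Γ] (c : Γ → Γ) (Y : Fin N → WW Pos Dir T N D Γ) :
    Fin N → Γ → WW Pos Dir T N D Γ := fun i τ s => Y i s + c τ

/-- The number of places (copy, slot) of the direction `p` where two families of words differ. -/
noncomputable def noise (X Y : Γ → WW Pos Dir T N D Γ) (p : Dir) : ℕ :=
  Nat.card {q : Γ × KK Pos T N D // X q.1 (p, q.2) ≠ Y q.1 (p, q.2)}

end

/-! ### Words with the same memory path -/

open Classical in
/-- A word near `y'` with the same value of `F` as `y` (if there is one). -/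
noncomputable def pick {ι Γ St : Type} [Fintype ι] [DecidableEq Γ] (F : (ι → Γ) → St)
    (y y' : ι → Γ) (ρ : ℕ) : ι → Γ :=
  if h : ∃ z, F z = F y ∧ hammingDist z y' ≤ ρ then h.choose else y'

section
variable {Pos Dir T U Γ : Type} {N D : ℕ}

open Classical in
/-- The part of the stream before the layer `q`. -/
noncomputable def before [Fintype Pos] [Fintype Dir] [Fintype T] [Fintype Γ] (C : SMT.TCert T U N)
    (G : Geo Pos Dir (Fin N → ZMod D)) (R : SMT.TRoles N D U C.cell)
    (P : Fin N → Dir) (X : Fin N → Γ → WW Pos Dir T N D Γ) (q : Fin N × Γ) :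
    List (Sym2 (VV Pos T Γ)) :=
  ((LL N Γ).takeWhile (fun q' => q' ≠ q)).flatMap
    (fun q' => layerList C G R P (q'.1 : ℕ) q'.2 (X q'.1 q'.2))

/-- The memory after the layer `q` with the word `W`, if the words before this layer are `X`. -/
noncomputable def after [Fintype Pos] [Fintype Dir] [Fintype T] [Fintype Γ] (C : SMT.TCert T U N)
    (G : Geo Pos Dir (Fin N → ZMod D)) (R : SMT.TRoles N D U C.cell) {b : ℕ}
    (A : NAlg (VV Pos T Γ) b) (P : Fin N → Dir) (X : Fin N → Γ → WW Pos Dir T N D Γ)
    (q : Fin N × Γ) (W : WW Pos Dir T N D Γ) : Fin (2 ^ b) :=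
  A.runFrom (before C G R P X q).length (A.runFrom 0 A.init (before C G R P X q))
    (layerList C G R P (q.1 : ℕ) q.2 W)

/-- The layer `q` of the stream with shift `c` collides with a word near the word with shift
`c'`. -/
def Coll [Fintype Pos] [Fintype Dir] [Fintype T] [Fintype Γ] [Add Γ] [DecidableEq Γ] [NeZero D]
    (C : SMT.TCert T U N)
    (G : Geo Pos Dir (Fin N → ZMod D)) (R : SMT.TRoles N D U C.cell) {b : ℕ}
    (A : NAlg (VV Pos T Γ) b) (c c' : Γ → Γ) (ρ : ℕ) (P : Fin N → Dir)
    (Y : Fin N → WW Pos Dir T N D Γ) (q : Fin N × Γ) : Prop :=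
  ∃ z : WW Pos Dir T N D Γ, after C G R A P (canon c Y) q z =
      after C G R A P (canon c Y) q (canon c Y q.1 q.2) ∧
    hammingDist z (canon c' Y q.1 q.2) ≤ ρ

/-- The words which follow the memory path of the stream with shift `c` and are near the words with
shift `c'`. -/
noncomputable def colX [Fintype Pos] [Fintype Dir] [Fintype T] [Fintype Γ] [Add Γ] [DecidableEq Γ]
    [NeZero D] (C : SMT.TCert T U N)
    (G : Geo Pos Dir (Fin N → ZMod D)) (R : SMT.TRoles N D U C.cell) {b : ℕ}
    (A : NAlg (VV Pos T Γ) b) (c c' : Γ → Γ) (ρ : ℕ) (P : Fin N → Dir)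
    (Y : Fin N → WW Pos Dir T N D Γ) : Fin N → Γ → WW Pos Dir T N D Γ := fun i τ =>
  pick (after C G R A P (canon c Y) (i, τ)) (canon c Y i τ) (canon c' Y i τ) ρ

end

end SOS
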