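import Pool.Agent.STG.GRD
import Pool.Agent.SMG.RUN
import Pool.Agent.SOS.Defs

/-! GRE: the greedy algorithm as an algorithm which outputs a number. `out t m` is the number of
edges of the output of the algorithm of `SMG.greedy`; it is at most `ν` by `SMG.le_nu`. -/

namespace SOS

open SMG

theorem greedy_num (n : ℕ) : ∃ A : NAlg (Fin n) (n * (Nat.log 2 (n + 1) + 1)),
    ∀ σ : List (Sym2 (Fin n)), IsStream σ →
      (1 / 2 : ℝ) * nu σ ≤ A.output σ ∧ A.output σ ≤ nu σ := by
  obtain ⟨A, hA⟩ := greedy n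
  let B : NAlg (Fin n) (n * (Nat.log 2 (n + 1) + 1)) :=
    { init := A.init
      step := A.step
      out := fun t m => ((A.out t m).card : ℝ) }
  have hrun : ∀ (l : List (Sym2 (Fin n))) (t : ℕ) (m : Fin (2 ^ (n * (Nat.log 2 (n + 1) + 1)))),
      B.runFrom t m l = A.runFrom t m l := by
    intro l
    induction l with
    | nil => intro t m; rfl
    | cons x l ih =>
      intro t m
      exact ih (t + 1) (A.step t m x)
  refine ⟨B, fun σ hσ => ?_⟩
  have hout : B.output σ = ((A.output σ).card : ℝ) := by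
    have h1 : B.output σ = ((A.out σ.length (B.runFrom 0 A.init σ)).card : ℝ) := rfl
    rw [h1, hrun]
    rfl
  obtain ⟨h1, h2, h3⟩ := hA σ hσ
  rw [hout]
  exact ⟨h3, by exact_mod_cast le_nu σ _ h1 h2⟩

end SOS
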