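import Mathlib

/-! ARI: the arithmetic of the contradiction.

`α (Z + J h c) ≤ α νY + α N B ≤ νN + N B ≤ Z + N^2 H + N^2 B + N B`, so
`α J h c ≤ (1 - α) Z + N^2 H + 2 N^2 B`; insert the bounds for `Z` and `c`:
`J P (α h - (1 - α) z) / u ≤ J ((2 h + Tc) κ' P + h) + N^2 H + 2 N^2 B`, the left side is
`J P ε / u` and the right side is at most `4 / 5` of it. -/

namespace SOS

theorem arith {z h u Tc P Z κ' c B N α ε J H νY νN : ℝ}
    (hz : 0 ≤ z) (hh : 0 ≤ h) (hu : 0 < u) (hTc : 0 ≤ Tc) (hP : 0 < P) (hα0 : 0 < α) (hα1 : α ≤ 1)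
    (hκ' : 0 ≤ κ') (hJ : 0 < J) (hN : 1 ≤ N) (hB0 : 0 ≤ B) (hε0 : 0 < ε)
    (hε : ε = α * (z + h) - z)
    (hlow : Z + J * h * c ≤ νY + N * B) (hupp : νN ≤ Z + N ^ 2 * H + N ^ 2 * B)
    (hs : α * νY ≤ νN)
    (hZ : Z ≤ J * (z * P / u) + J * (Tc * (κ' * P)))
    (hc : P * (1 / u - 2 * κ') - 1 ≤ c)
    (hκ2 : (2 * h + Tc) * κ' ≤ ε / (5 * u))
    (hP2 : h ≤ ε / (5 * u) * P)
    (hH : N ^ 2 * H ≤ J * (ε / (5 * u)) * P)
    (hB : 2 * N ^ 2 * B ≤ J * (ε / (5 * u)) * P) : False := by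
  obtain ⟨X, hXd⟩ : ∃ X, X = ε / (5 * u) * P := ⟨_, rfl⟩
  have hX : 0 < X := by rw [hXd]; positivity
  have h5 : ε * P / u = 5 * X := by rw [hXd]; field_simp
  have hNB : 0 ≤ N * B := by positivity
  have e2 : α * (N * B) ≤ N ^ 2 * B := by
    have a1 : α * (N * B) ≤ 1 * (N * B) := mul_le_mul_of_nonneg_right hα1 hNB
    have a2 : 1 * (N * B) ≤ N * (N * B) := mul_le_mul_of_nonneg_right hN hNB
    have a3 : N * (N * B) = N ^ 2 * B := by ring
    linarith
  have e1 : α * (Z + J * h * c) ≤ α * (νY + N * B) := mul_le_mul_of_nonneg_left hlow hα0.le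
  have e1' : α * (Z + J * h * c) = α * Z + α * (J * h * c) := by ring
  have e1'' : α * (νY + N * B) = α * νY + α * (N * B) := by ring
  have e3 : α * (J * h * c) ≤ (1 - α) * Z + N ^ 2 * H + 2 * N ^ 2 * B := by
    have : (1 - α) * Z = Z - α * Z := by ring
    have h3 : 2 * N ^ 2 * B = N ^ 2 * B + N ^ 2 * B := by ring
    rw [this, h3]
    linarith
  have e4 : (1 - α) * Z ≤ (1 - α) * (J * (z * P / u) + J * (Tc * (κ' * P))) :=
    mul_le_mul_of_nonneg_left hZ (by linarith)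
  have e5 : α * (J * h) * (P * (1 / u - 2 * κ') - 1) ≤ α * (J * h) * c :=
    mul_le_mul_of_nonneg_left hc (by positivity)
  have e5' : α * (J * h) * c = α * (J * h * c) := by ring
  have hH' : N ^ 2 * H ≤ J * X := by
    rw [hXd]; exact le_of_le_of_eq hH (by ring)
  have hB' : 2 * N ^ 2 * B ≤ J * X := by
    rw [hXd]; exact le_of_le_of_eq hB (by ring)
  have e7 : J * (α * h * (P * (1 / u - 2 * κ') - 1)) ≤
      J * ((1 - α) * (z * P / u + Tc * (κ' * P)) + 2 * X) := by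
    have l1 : J * (α * h * (P * (1 / u - 2 * κ') - 1)) =
      α * (J * h) * (P * (1 / u - 2 * κ') - 1) := by ring
    have l2 : J * ((1 - α) * (z * P / u + Tc * (κ' * P)) + 2 * X) =
      (1 - α) * (J * (z * P / u) + J * (Tc * (κ' * P))) + J * X + J * X := by ring
    rw [l1, l2]
    linarith
  have e8 := le_of_mul_le_mul_left e7 hJ
  have e9 : (2 * h + Tc) * κ' * P ≤ X := by
    rw [hXd]; exact mul_le_mul_of_nonneg_right hκ2 hP.le
  have e10 : α * h * (P * (1 / u)) - (1 - α) * (z * P / u) = 5 * X := by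
    rw [← h5, hε]; field_simp; ring
  have hkP : 0 ≤ κ' * P := by positivity
  have e11 : α * (h * (2 * (κ' * P) + 1)) ≤ 1 * (h * (2 * (κ' * P) + 1)) :=
    mul_le_mul_of_nonneg_right hα1 (by positivity)
  have e12 : (1 - α) * (Tc * (κ' * P)) ≤ 1 * (Tc * (κ' * P)) :=
    mul_le_mul_of_nonneg_right (by linarith) (by positivity)
  have e13 : α * h * (P * (1 / u - 2 * κ') - 1) =
    α * h * (P * (1 / u)) - α * (h * (2 * (κ' * P) + 1)) := by ring
  have e14 : (1 - α) * (z * P / u + Tc * (κ' * P)) =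
    (1 - α) * (z * P / u) + (1 - α) * (Tc * (κ' * P)) := by ring
  have e15 : (2 * h + Tc) * κ' * P = 1 * (h * (2 * (κ' * P) + 1)) + 1 * (Tc * (κ' * P)) - h := by ring
  rw [← hXd] at hP2
  rw [e13, e14] at e8
  linarith

end SOS
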