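import Mathlib

/-! BLA: the exponential moment of the distance to a set in a product space (Talagrand type
inequality, induction on the number of coordinates).

`d(y, A) = A.inf' hA (hammingDist y)`. Claim: `|A| * ∑_y exp (s d(y, A)) ≤ J^(2n) q^n` with
`q = cosh (s / 2) ^ 2`, `J = |Γ|`. -/

namespace SOS

private lemma bla_ham {Γ : Type} [DecidableEq Γ] (n : ℕ) (a b : Γ) (y z : Fin n → Γ) :
    hammingDist (Fin.cons a y : Fin (n + 1) → Γ) (Fin.cons b z) =
      (if a ≠ b then 1 else 0) + hammingDist y z := by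
  unfold hammingDist
  rw [Finset.card_filter, Finset.card_filter, Fin.sum_univ_succ]
  simp

private lemma bla_cosh (s : ℝ) :
    Real.cosh (s / 2) ^ 2 = (1 + Real.exp s) ^ 2 / (4 * Real.exp s) := by
  have h1 : Real.exp (s / 2) * Real.exp (s / 2) = Real.exp s := by
    rw [← Real.exp_add]; ring_nf
  have h2 : Real.exp (-(s / 2)) * Real.exp (s / 2) = 1 := by
    rw [← Real.exp_add]; simp
  have h3 : 0 < Real.exp s := Real.exp_pos s
  have h4 : 0 < Real.exp (s / 2) := Real.exp_pos _
  rw [Real.cosh_eq]
  rw [eq_div_iff (by positivity)]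
  have h5 : Real.exp s = Real.exp (s / 2) * Real.exp (s / 2) := h1.symm
  have h6 : Real.exp (-(s / 2)) = 1 / Real.exp (s / 2) := by
    rw [eq_div_iff h4.ne']; exact h2
  rw [h5, h6]
  field_simp
  ring

private lemma bla_real (E v : ℝ) (hE : 0 < E) : v * (1 + E - E * v) ≤ (1 + E) ^ 2 / (4 * E) := by
  rw [le_div_iff₀ (by positivity)]
  nlinarith [sq_nonneg (1 + E - 2 * E * v)]

private lemma bla_inf_le {X : Type} (A : Finset X) (hA : A.Nonempty) (f : X → ℕ) (z : X)
    (hz : z ∈ A) : A.inf' hA f ≤ f z := Finset.inf'_le f hz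

theorem moment_fin {Γ : Type} [Fintype Γ] [DecidableEq Γ] (s : ℝ) (hs : 0 ≤ s) (n : ℕ)
    (A : Finset (Fin n → Γ)) (hA : A.Nonempty) :
    (A.card : ℝ) * ∑ y : Fin n → Γ, Real.exp (s * (A.inf' hA (fun z => hammingDist y z) : ℕ)) ≤
      (Fintype.card Γ : ℝ) ^ (2 * n) * (Real.cosh (s / 2) ^ 2) ^ n := by
  classical
  induction n with
  | zero =>
    have hA1 : A.card = 1 := by
      apply le_antisymm
      · calc A.card ≤ Fintype.card (Fin 0 → Γ) := Finset.card_le_univ A
          _ = 1 := by simp
      · exact hA.card_pos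
    obtain ⟨z0, hz0⟩ := hA
    have h : ∀ y : Fin 0 → Γ, (A.inf' ⟨z0, hz0⟩ (fun z => hammingDist y z) : ℕ) = 0 := by
      intro y
      have h1 := bla_inf_le A ⟨z0, hz0⟩ (fun z => hammingDist y z) z0 hz0
      have h2 : hammingDist y z0 = 0 := by
        rw [Subsingleton.elim y z0]; exact hammingDist_self z0
      omega
    simp [hA1, h]
  | succ n ih =>
    set J : ℝ := (Fintype.card Γ : ℝ) with hJ
    set E : ℝ := Real.exp s with hE
    have hE0 : 0 < E := Real.exp_pos s
    set K : ℝ := J ^ (2 * n) * (Real.cosh (s / 2) ^ 2) ^ n with hK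
    have hJ0 : 0 ≤ J := by positivity
    have hK0 : 0 ≤ K := by positivity
    -- sections and projection
    set Aa : Γ → Finset (Fin n → Γ) := fun a => Finset.univ.filter (fun y => (Fin.cons a y : Fin (n + 1) → Γ) ∈ A) with hAa
    set A' : Finset (Fin n → Γ) := Finset.univ.filter (fun y => ∃ a, (Fin.cons a y : Fin (n + 1) → Γ) ∈ A) with hA'
    have hA'ne : A'.Nonempty := by
      obtain ⟨z, hz⟩ := hA
      refine ⟨Fin.tail z, ?_⟩
      rw [hA', Finset.mem_filter]
      exact ⟨Finset.mem_univ _, z 0, by rwa [Fin.cons_self_tail]⟩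
    have hsub : ∀ a, Aa a ⊆ A' := by
      intro a y hy
      rw [hAa] at hy
      simp only [Finset.mem_filter, Finset.mem_univ, true_and] at hy
      rw [hA', Finset.mem_filter]
      exact ⟨Finset.mem_univ _, a, hy⟩
    have hcardA : (A.card : ℝ) = ∑ a, ((Aa a).card : ℝ) := by
      have h1 : A.card = ∑ x : Fin (n + 1) → Γ, if x ∈ A then 1 else 0 := by
        rw [Finset.sum_ite_mem]; simp
      have h2 : (∑ x : Fin (n + 1) → Γ, if x ∈ A then (1 : ℕ) else 0) =
          ∑ p : Γ × (Fin n → Γ), if (Fin.cons p.1 p.2 : Fin (n + 1) → Γ) ∈ A then 1 else 0 := by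
        rw [← (Fin.consEquiv (fun _ : Fin (n + 1) => Γ)).sum_comp]
        rfl
      rw [h1, h2, Fintype.sum_prod_type]
      push_cast
      refine Finset.sum_congr rfl fun a _ => ?_
      rw [hAa]
      simp only [Finset.card_filter]
      push_cast
      rfl
    have hsum : ∑ x : Fin (n + 1) → Γ, Real.exp (s * (A.inf' hA (fun z => hammingDist x z) : ℕ)) =
        ∑ a, ∑ y : Fin n → Γ, Real.exp (s * (A.inf' hA (fun z => hammingDist (Fin.cons a y : Fin (n + 1) → Γ) z) : ℕ)) := by
      rw [← Fintype.sum_prod_type' (f := fun a (y : Fin n → Γ) => Real.exp (s * (A.inf' hA (fun z => hammingDist (Fin.cons a y : Fin (n + 1) → Γ) z) : ℕ)))]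
      rw [← (Fin.consEquiv (fun _ : Fin (n + 1) => Γ)).sum_comp]
      rfl
    have hA'pos : (0 : ℝ) < A'.card := by exact_mod_cast hA'ne.card_pos
    -- bound (ii)
    have hii : ∀ a, ∑ y : Fin n → Γ, Real.exp (s * (A.inf' hA (fun z => hammingDist (Fin.cons a y : Fin (n + 1) → Γ) z) : ℕ)) ≤ K / A'.card * E := by
      intro a
      have h1 : ∀ y : Fin n → Γ, Real.exp (s * (A.inf' hA (fun z => hammingDist (Fin.cons a y : Fin (n + 1) → Γ) z) : ℕ)) ≤
          Real.exp (s * (A'.inf' hA'ne (fun z => hammingDist y z) : ℕ)) * E := by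
        intro y
        rw [hE, ← Real.exp_add]
        apply Real.exp_le_exp.mpr
        obtain ⟨z, hz, hzeq⟩ := Finset.exists_mem_eq_inf' hA'ne (fun z => hammingDist y z)
        rw [hA', Finset.mem_filter] at hz
        obtain ⟨-, b, hb⟩ := hz
        have h2 := bla_inf_le A hA (fun z => hammingDist (Fin.cons a y : Fin (n + 1) → Γ) z) _ hb
        simp only [bla_ham] at h2
        have h3 : (if a ≠ b then 1 else 0) ≤ 1 := by split_ifs <;> omega
        have h4 : A.inf' hA (fun z => hammingDist (Fin.cons a y : Fin (n + 1) → Γ) z) ≤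
            A'.inf' hA'ne (fun z => hammingDist y z) + 1 := by
          rw [hzeq]; omega
        have h5 : ((A.inf' hA (fun z => hammingDist (Fin.cons a y : Fin (n + 1) → Γ) z) : ℕ) : ℝ) ≤
            (A'.inf' hA'ne (fun z => hammingDist y z) : ℕ) + 1 := by exact_mod_cast h4
        nlinarith
      calc _ ≤ ∑ y : Fin n → Γ, Real.exp (s * (A'.inf' hA'ne (fun z => hammingDist y z) : ℕ)) * E :=
            Finset.sum_le_sum fun y _ => h1 y
        _ = (∑ y : Fin n → Γ, Real.exp (s * (A'.inf' hA'ne (fun z => hammingDist y z) : ℕ))) * E := by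
            rw [Finset.sum_mul]
        _ ≤ K / A'.card * E := by
            apply mul_le_mul_of_nonneg_right _ hE0.le
            rw [le_div_iff₀ hA'pos, mul_comm]
            exact ih A' hA'ne
    have hi : ∀ a (h : (Aa a).Nonempty), ∑ y : Fin n → Γ, Real.exp (s * (A.inf' hA (fun z => hammingDist (Fin.cons a y : Fin (n + 1) → Γ) z) : ℕ)) ≤ K / (Aa a).card := by
      intro a h
      have hpos : (0 : ℝ) < (Aa a).card := by exact_mod_cast h.card_pos
      rw [le_div_iff₀ hpos, mul_comm]
      refine le_trans ?_ (ih (Aa a) h)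
      apply mul_le_mul_of_nonneg_left _ hpos.le
      refine Finset.sum_le_sum fun y _ => ?_
      apply Real.exp_le_exp.mpr
      apply mul_le_mul_of_nonneg_left _ hs
      obtain ⟨z, hz, hzeq⟩ := Finset.exists_mem_eq_inf' h (fun z => hammingDist y z)
      have hz' : (Fin.cons a z : Fin (n + 1) → Γ) ∈ A := by
        rw [hAa] at hz
        simpa using hz
      have h2 := bla_inf_le A hA (fun z => hammingDist (Fin.cons a y : Fin (n + 1) → Γ) z) _ hz'
      simp only [bla_ham] at h2
      rw [hzeq]
      have h3 : A.inf' hA (fun z => hammingDist (Fin.cons a y : Fin (n + 1) → Γ) z) ≤ hammingDist y z := by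
        simpa using h2
      exact_mod_cast h3
    have hkey : ∀ a, ∑ y : Fin n → Γ, Real.exp (s * (A.inf' hA (fun z => hammingDist (Fin.cons a y : Fin (n + 1) → Γ) z) : ℕ)) ≤
        K / A'.card * (1 + E - E * ((Aa a).card / A'.card)) := by
      intro a
      set u : ℝ := (Aa a).card / A'.card with hu
      have hu1 : u ≤ 1 := by
        rw [hu, div_le_one hA'pos]
        exact_mod_cast Finset.card_le_card (hsub a)
      have hu0 : 0 ≤ u := by positivity
      have hKA : 0 ≤ K / A'.card := by positivity
      by_cases hc : E * u ≤ 1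
      · refine le_trans (hii a) ?_
        apply mul_le_mul_of_nonneg_left _ hKA
        linarith
      · push Not at hc
        have hupos : 0 < u := by
          rcases hu0.lt_or_eq with h | h
          · exact h
          · rw [← h] at hc; simp at hc; linarith
        have hcardpos : (0 : ℝ) < (Aa a).card := by
          by_contra hcon
          have : ((Aa a).card : ℝ) = 0 := le_antisymm (not_lt.mp hcon) (by positivity)
          rw [hu, this] at hupos
          simp at hupos
        have hne : (Aa a).Nonempty := by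
          rw [← Finset.card_pos]; exact_mod_cast hcardpos
        refine le_trans (hi a hne) ?_
        have h6 : K / (Aa a).card = K / A'.card * (1 / u) := by
          rw [hu]; field_simp
        rw [h6]
        apply mul_le_mul_of_nonneg_left _ hKA
        rw [div_le_iff₀ hupos]
        nlinarith [mul_nonneg (sub_nonneg.mpr hu1) (sub_nonneg.mpr hc.le)]
    rw [hsum]
    have hJA : (0 : ℝ) < J := by
      obtain ⟨z, _⟩ := hA
      have : 0 < Fintype.card Γ := Fintype.card_pos_iff.mpr ⟨z 0⟩
      rw [hJ]; exact_mod_cast this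
    have htot : ∑ a, ∑ y : Fin n → Γ, Real.exp (s * (A.inf' hA (fun z => hammingDist (Fin.cons a y : Fin (n + 1) → Γ) z) : ℕ)) ≤
        K / A'.card * (J * (1 + E) - E * (A.card / A'.card)) := by
      calc _ ≤ ∑ a : Γ, K / A'.card * (1 + E - E * ((Aa a).card / A'.card)) :=
            Finset.sum_le_sum fun a _ => hkey a
        _ = K / A'.card * (J * (1 + E) - E * (A.card / A'.card)) := by
            rw [← Finset.mul_sum]
            congr 1
            rw [Finset.sum_sub_distrib, ← Finset.mul_sum, ← Finset.sum_div, ← hcardA]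
            rw [Finset.sum_const, Finset.card_univ, nsmul_eq_mul, hJ]
    have hAc : (0 : ℝ) ≤ A.card := by positivity
    refine le_trans (mul_le_mul_of_nonneg_left htot hAc) ?_
    set v : ℝ := A.card / (J * A'.card) with hv
    have h7 : (A.card : ℝ) * (K / A'.card * (J * (1 + E) - E * (A.card / A'.card))) =
        K * J ^ 2 * (v * (1 + E - E * v)) := by
      rw [hv]; field_simp
    rw [h7]
    have h8 := bla_real E v hE0
    rw [← bla_cosh s] at h8
    calc K * J ^ 2 * (v * (1 + E - E * v)) ≤ K * J ^ 2 * (Real.cosh (s / 2) ^ 2) :=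
          mul_le_mul_of_nonneg_left h8 (by positivity)
      _ = J ^ (2 * (n + 1)) * (Real.cosh (s / 2) ^ 2) ^ (n + 1) := by
          rw [hK]; ring

end SOS
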