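import Pool.Agent.SOS.BLA

/-! BLB: blow-up lemma. From `moment_fin` (transport along `Fintype.equivFin ι`; `hammingDist` is
invariant: it is the card of a filter), Markov: each `y` with `ρ < d(y, A)` contributes at least
`exp (s ρ)`; `cosh x ≤ exp (x^2 / 2)` (`Real.cosh_le_exp_half_sq`), `s = 2 ρ / |ι|`:
`|A| |{d > ρ}| exp (s ρ) ≤ J^(2n) exp (s^2 n / 4)`, `s^2 n / 4 - s ρ = - ρ^2 / n`. -/

namespace SOS

open Classical in
private lemma blb_ham {ι Γ : Type} [Fintype ι] {n : ℕ} (e : ι ≃ Fin n) (y z : ι → Γ) :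
    hammingDist (fun i => y (e.symm i)) (fun i => z (e.symm i)) = hammingDist y z := by
  unfold hammingDist
  refine Finset.card_bij' (fun i _ => e.symm i) (fun i _ => e i) ?_ ?_ ?_ ?_ <;> simp

open Classical in
theorem blowup {ι Γ : Type} [Fintype ι] [Nonempty ι] [Fintype Γ]
    (A : Finset (ι → Γ)) (ρ : ℕ) :
    (A.card : ℝ) * (Nat.card {y : ι → Γ // ∀ z ∈ A, ρ < hammingDist y z} : ℝ) ≤
      (Fintype.card Γ : ℝ) ^ (2 * Fintype.card ι) *
        Real.exp (-((ρ : ℝ) ^ 2 / Fintype.card ι)) := by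
  rcases A.eq_empty_or_nonempty with h0 | hA
  · rw [h0]
    simp only [Finset.card_empty, Nat.cast_zero, zero_mul]
    positivity
  set n := Fintype.card ι with hn
  have hn0 : 0 < n := Fintype.card_pos
  have hnR : (0 : ℝ) < n := by exact_mod_cast hn0
  set e : ι ≃ Fin n := Fintype.equivFin ι with he
  set φ : (ι → Γ) ≃ (Fin n → Γ) := Equiv.arrowCongr e (Equiv.refl Γ) with hφ
  have hφa : ∀ y : ι → Γ, φ y = fun i => y (e.symm i) := fun y => rfl
  set B : Finset (Fin n → Γ) := A.map φ.toEmbedding with hB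
  have hBne : B.Nonempty := by rw [hB, Finset.map_nonempty]; exact hA
  have hBc : B.card = A.card := by rw [hB, Finset.card_map]
  set s : ℝ := 2 * ρ / n with hs
  have hs0 : 0 ≤ s := by positivity
  have hm := moment_fin s hs0 n B hBne
  set S : Finset (ι → Γ) := Finset.univ.filter (fun y => ∀ z ∈ A, ρ < hammingDist y z) with hS
  have hSc : Nat.card {y : ι → Γ // ∀ z ∈ A, ρ < hammingDist y z} = S.card := by
    rw [Nat.card_eq_fintype_card, hS]
    exact Fintype.card_subtype _
  rw [hSc]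
  have hlow : (S.card : ℝ) * Real.exp (s * ρ) ≤
      ∑ y : Fin n → Γ, Real.exp (s * (B.inf' hBne (fun z => hammingDist y z) : ℕ)) := by
    rw [← φ.sum_comp (fun y : Fin n → Γ => Real.exp (s * (B.inf' hBne (fun z => hammingDist y z) : ℕ)))]
    calc (S.card : ℝ) * Real.exp (s * ρ) = ∑ y ∈ S, Real.exp (s * ρ) := by
          rw [Finset.sum_const, nsmul_eq_mul]
      _ ≤ ∑ y ∈ S, Real.exp (s * (B.inf' hBne (fun z => hammingDist (φ y) z) : ℕ)) := by
          refine Finset.sum_le_sum fun y hy => ?_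
          apply Real.exp_le_exp.mpr
          apply mul_le_mul_of_nonneg_left _ hs0
          rw [hS, Finset.mem_filter] at hy
          obtain ⟨z, hz, hzeq⟩ := Finset.exists_mem_eq_inf' hBne (fun z => hammingDist (φ y) z)
          rw [hzeq]
          rw [hB, Finset.mem_map] at hz
          obtain ⟨w, hw, rfl⟩ := hz
          have h1 := hy.2 w hw
          have h2 : hammingDist (φ y) (φ.toEmbedding w) = hammingDist y w := by
            show hammingDist (φ y) (φ w) = _
            rw [hφa, hφa]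
            exact blb_ham e y w
          rw [h2]
          exact_mod_cast h1.le
      _ ≤ ∑ y : ι → Γ, Real.exp (s * (B.inf' hBne (fun z => hammingDist (φ y) z) : ℕ)) :=
          Finset.sum_le_sum_of_subset_of_nonneg (Finset.subset_univ S)
            (fun _ _ _ => (Real.exp_pos _).le)
  have hcosh : (Real.cosh (s / 2) ^ 2) ^ n ≤ Real.exp (s ^ 2 / 4 * n) := by
    have h1 : Real.cosh (s / 2) ≤ Real.exp ((s / 2) ^ 2 / 2) := Real.cosh_le_exp_half_sq _
    have h2 : Real.cosh (s / 2) ^ 2 ≤ Real.exp (s ^ 2 / 4) := by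
      calc Real.cosh (s / 2) ^ 2 ≤ Real.exp ((s / 2) ^ 2 / 2) ^ 2 :=
            pow_le_pow_left₀ (Real.cosh_pos _).le h1 2
        _ = Real.exp (s ^ 2 / 4) := by
            rw [← Real.exp_nat_mul]; congr 1; push_cast; ring
    calc (Real.cosh (s / 2) ^ 2) ^ n ≤ Real.exp (s ^ 2 / 4) ^ n :=
          pow_le_pow_left₀ (by positivity) h2 n
      _ = Real.exp (s ^ 2 / 4 * n) := by
          rw [← Real.exp_nat_mul]; congr 1; ring
  have hAc : (0 : ℝ) ≤ A.card := by positivity
  have hall : (A.card : ℝ) * (S.card * Real.exp (s * ρ)) ≤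
      (Fintype.card Γ : ℝ) ^ (2 * n) * Real.exp (s ^ 2 / 4 * n) := by
    calc (A.card : ℝ) * (S.card * Real.exp (s * ρ)) ≤
        A.card * ∑ y : Fin n → Γ, Real.exp (s * (B.inf' hBne (fun z => hammingDist y z) : ℕ)) :=
          mul_le_mul_of_nonneg_left hlow hAc
      _ ≤ (Fintype.card Γ : ℝ) ^ (2 * n) * (Real.cosh (s / 2) ^ 2) ^ n := by
          rw [hBc] at hm; exact hm
      _ ≤ _ := mul_le_mul_of_nonneg_left hcosh (by positivity)
  have hexp : Real.exp (-((ρ : ℝ) ^ 2 / n)) * Real.exp (s * ρ) = Real.exp (s ^ 2 / 4 * n) := by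
    rw [← Real.exp_add]
    congr 1
    rw [hs]
    field_simp
    ring
  have hpos : 0 < Real.exp (s * ρ) := Real.exp_pos _
  have hfin : (A.card : ℝ) * S.card * Real.exp (s * ρ) ≤
      (Fintype.card Γ : ℝ) ^ (2 * n) * Real.exp (-((ρ : ℝ) ^ 2 / n)) * Real.exp (s * ρ) := by
    rw [mul_assoc, mul_assoc, hexp]
    exact hall
  exact le_of_mul_le_mul_right hfin hpos

end SOS
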