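import Pool.Agent.SOS.LAY

/-! CGR: the colliding words of phase `i` only depend on the special directions of the earlier
phases: `before_congr` and `layerList_congr` give that the function `after .. (i, τ)` is the same. -/

namespace SOS

open SMG

theorem colX_congr {Pos Dir T U Γ : Type} {N D : ℕ} [Fintype Pos] [Fintype Dir] [Fintype T]
    [Fintype Γ] [Add Γ] [DecidableEq Γ] [NeZero D] (C : SMT.TCert T U N)
    (G : Geo Pos Dir (Fin N → ZMod D)) (R : SMT.TRoles N D U C.cell) {b : ℕ}
    (A : NAlg (VV Pos T Γ) b) (c c' : Γ → Γ) (ρ : ℕ) {P P' : Fin N → Dir}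
    (Y : Fin N → WW Pos Dir T N D Γ) (i : Fin N) (h : ∀ l : Fin N, l < i → P l = P' l) :
    colX C G R A c c' ρ P Y i = colX C G R A c c' ρ P' Y i := by
  funext τ
  have hafter : after C G R A P (canon c Y) (i, τ) = after C G R A P' (canon c Y) (i, τ) := by
    funext W
    unfold after
    have h' : ∀ l : Fin N, (l : ℕ) < (i : ℕ) → P l = P' l := fun l hl => h l hl
    have e1 := before_congr C G R (i, τ) h (canon c Y)
    have e2 := layerList_congr C G R h' τ W
    simp only [e1, e2]
  unfold colX
  rw [hafter]

end SOS
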