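import Pool.Agent.SOS.BLB

/-! COL: few words have no near partner in their class. `y ↦ y + c` is injective from the set in
question to `A`, and `y ↦ y + c'` is injective to `{y | ∀ z ∈ A, ρ < hammingDist y z}`; so its square
is at most the product of the two cardinals. (`hammingDist` with classical decidability in `blowup`:
the instance is replaced by the classical one with `Subsingleton.elim`.) -/

namespace SOS

theorem col_one {ι Γ : Type} [Fintype ι] [Nonempty ι] [Fintype Γ] [AddCommGroup Γ]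
    [DecidableEq Γ] (A : Set (ι → Γ)) (c c' : ι → Γ) (ρ : ℕ) :
    (Nat.card {y : ι → Γ // y + c ∈ A ∧ ∀ z ∈ A, ρ < hammingDist (y + c') z} : ℝ) ≤
      (Fintype.card Γ : ℝ) ^ Fintype.card ι *
        Real.exp (-((ρ : ℝ) ^ 2 / (2 * Fintype.card ι))) := by
  rename_i inst
  have hinst : inst = fun a b => Classical.propDecidable (a = b) := Subsingleton.elim _ _
  subst hinst
  classical
  set B : Finset (ι → Γ) := Finset.univ.filter (fun z => z ∈ A) with hB
  have hb : (B.card : ℝ) * (Nat.card {y : ι → Γ // ∀ z ∈ B, ρ < hammingDist y z} : ℝ) ≤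
      (Fintype.card Γ : ℝ) ^ (2 * Fintype.card ι) *
        Real.exp (-((ρ : ℝ) ^ 2 / Fintype.card ι)) := by
    exact blowup B ρ
  set K : ℕ := Nat.card {y : ι → Γ // y + c ∈ A ∧ ∀ z ∈ A, ρ < hammingDist (y + c') z} with hK
  have h1 : K ≤ B.card := by
    have hBc : B.card = Nat.card {z : ι → Γ // z ∈ A} := by
      rw [Nat.card_eq_fintype_card, hB]
      exact (Fintype.card_subtype _).symm
    rw [hBc, hK]
    refine Nat.card_le_card_of_injective
      (fun y : {y : ι → Γ // y + c ∈ A ∧ ∀ z ∈ A, ρ < hammingDist (y + c') z} =>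
        (⟨y.1 + c, y.2.1⟩ : {z : ι → Γ // z ∈ A})) ?_
    intro y y' h
    have h' : y.1 + c = y'.1 + c := congrArg Subtype.val h
    exact Subtype.ext (add_right_cancel h')
  have h2 : K ≤ Nat.card {y : ι → Γ // ∀ z ∈ B, ρ < hammingDist y z} := by
    rw [hK]
    refine Nat.card_le_card_of_injective
      (fun y : {y : ι → Γ // y + c ∈ A ∧ ∀ z ∈ A, ρ < hammingDist (y + c') z} =>
        (⟨y.1 + c', fun z hz => ?_⟩ : {y : ι → Γ // ∀ z ∈ B, ρ < hammingDist y z})) ?_
    · have hz' : z ∈ A := by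
        rw [hB, Finset.mem_filter] at hz
        exact hz.2
      exact y.2.2 z hz'
    · intro y y' h
      have h' : y.1 + c' = y'.1 + c' := congrArg Subtype.val h
      exact Subtype.ext (add_right_cancel h')
  have h3 : (K : ℝ) ^ 2 ≤ ((Fintype.card Γ : ℝ) ^ Fintype.card ι *
        Real.exp (-((ρ : ℝ) ^ 2 / (2 * Fintype.card ι)))) ^ 2 := by
    have h4 : (K : ℝ) ^ 2 ≤
        (B.card : ℝ) * (Nat.card {y : ι → Γ // ∀ z ∈ B, ρ < hammingDist y z} : ℝ) := by
      rw [pow_two]
      have h1' : (K : ℝ) ≤ (B.card : ℝ) := by exact_mod_cast h1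
      have h2' : (K : ℝ) ≤ (Nat.card {y : ι → Γ // ∀ z ∈ B, ρ < hammingDist y z} : ℝ) := by
        exact_mod_cast h2
      exact mul_le_mul h1' h2' (Nat.cast_nonneg _) (Nat.cast_nonneg _)
    refine h4.trans (hb.trans (le_of_eq ?_))
    rw [mul_pow, ← pow_mul, ← Real.exp_nat_mul, mul_comm (Fintype.card ι) 2]
    congr 2
    have hn0 : (Fintype.card ι : ℝ) ≠ 0 := by
      have : 0 < Fintype.card ι := Fintype.card_pos
      positivity
    field_simp
    push_cast
    ring
  have h5 : 0 ≤ (Fintype.card Γ : ℝ) ^ Fintype.card ι *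
        Real.exp (-((ρ : ℝ) ^ 2 / (2 * Fintype.card ι))) := by positivity
  exact le_of_sq_le_sq h3 h5

/-- The same for a function with few values: most words `y` have a word `z` near `y + c'` with
`F s z = F s (y + c)`, for all `s` at the same time. Union over the pairs `(s, s')`. -/
theorem col_fun {ι Γ S : Type} [Fintype ι] [Nonempty ι] [Fintype Γ] [AddCommGroup Γ]
    [DecidableEq Γ] [Fintype S] (F : S → (ι → Γ) → S) (c c' : ι → Γ) (ρ : ℕ) :
    (Nat.card {y : ι → Γ // ∃ s, ∀ z, F s z = F s (y + c) → ρ < hammingDist z (y + c')} : ℝ) ≤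
      (Fintype.card S : ℝ) ^ 2 * ((Fintype.card Γ : ℝ) ^ Fintype.card ι *
        Real.exp (-((ρ : ℝ) ^ 2 / (2 * Fintype.card ι)))) := by
  classical
  set R : ℝ := (Fintype.card Γ : ℝ) ^ Fintype.card ι *
        Real.exp (-((ρ : ℝ) ^ 2 / (2 * Fintype.card ι))) with hR
  set E : S × S → Finset (ι → Γ) := fun q => Finset.univ.filter
    (fun y => y + c ∈ {z | F q.1 z = q.2} ∧
      ∀ z ∈ {z | F q.1 z = q.2}, ρ < hammingDist (y + c') z) with hE
  have hEc : ∀ q, ((E q).card : ℝ) ≤ R := by
    intro q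
    have h := col_one {z : ι → Γ | F q.1 z = q.2} c c' ρ
    have h' : (E q).card = Nat.card {y : ι → Γ // y + c ∈ {z : ι → Γ | F q.1 z = q.2} ∧
        ∀ z ∈ {z : ι → Γ | F q.1 z = q.2}, ρ < hammingDist (y + c') z} := by
      rw [Nat.card_eq_fintype_card, hE]
      exact (Fintype.card_subtype _).symm
    rw [h']
    exact h
  have hsub : (Finset.univ.filter (fun y : ι → Γ =>
      ∃ s, ∀ z, F s z = F s (y + c) → ρ < hammingDist z (y + c'))) ⊆ Finset.univ.biUnion E := by
    intro y hy
    rw [Finset.mem_filter] at hy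
    obtain ⟨s, hs⟩ := hy.2
    rw [Finset.mem_biUnion]
    refine ⟨(s, F s (y + c)), Finset.mem_univ _, ?_⟩
    rw [hE]
    simp only [Finset.mem_filter, Finset.mem_univ, true_and, Set.mem_ofPred_eq]
    intro z hz
    rw [hammingDist_comm]
    exact hs z hz
  have hc : Nat.card {y : ι → Γ // ∃ s, ∀ z, F s z = F s (y + c) → ρ < hammingDist z (y + c')} =
      (Finset.univ.filter (fun y : ι → Γ =>
        ∃ s, ∀ z, F s z = F s (y + c) → ρ < hammingDist z (y + c'))).card := by
    rw [Nat.card_eq_fintype_card]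
    exact Fintype.card_subtype _
  rw [hc]
  have h1 : ((Finset.univ.filter (fun y : ι → Γ =>
        ∃ s, ∀ z, F s z = F s (y + c) → ρ < hammingDist z (y + c'))).card : ℝ) ≤
      ((Finset.univ.biUnion E).card : ℝ) := by
    exact_mod_cast Finset.card_le_card hsub
  have h2 : ((Finset.univ.biUnion E).card : ℝ) ≤ ∑ q : S × S, ((E q).card : ℝ) := by
    exact_mod_cast Finset.card_biUnion_le
  have h3 : ∑ q : S × S, ((E q).card : ℝ) ≤ ∑ _q : S × S, R :=
    Finset.sum_le_sum fun q _ => hEc q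
  have h4 : ∑ _q : S × S, R = (Fintype.card S : ℝ) ^ 2 * R := by
    rw [Finset.sum_const, nsmul_eq_mul, Finset.card_univ, Fintype.card_prod]
    push_cast
    ring
  linarith

end SOS
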