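import Pool.Agent.SOS.LSL
import Pool.Agent.SMT.ALV

/-! LAY: the layers only depend on the earlier special directions; their lengths do not depend on
the words.

Use `SMT.slotOK_congr` (compare `SMT.phaseList_congr`, `SMT.phaseList_length`); for `before_*` use
`before_le` and `List.map_congr_left` (compare `SMT.preL_congr` in `Pool/Agent/SMT/OUTB.lean`). -/

namespace SOS

open SMG

variable {Pos Dir T U Γ : Type} {N D : ℕ} [Fintype Pos] [Fintype Dir] [Fintype T]

theorem layerList_congr (C : SMT.TCert T U N) (G : Geo Pos Dir (Fin N → ZMod D))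
    (R : SMT.TRoles N D U C.cell) {P P' : Fin N → Dir} {i : ℕ}
    (h : ∀ l : Fin N, (l : ℕ) < i → P l = P' l) (τ : Γ) (W : WW Pos Dir T N D Γ) :
    layerList C G R P i τ W = layerList C G R P' i τ W := by
  have e : (SMT.slotOK C G R P i : Dir → JJ Pos T → Prop) = SMT.slotOK C G R P' i := by
    funext p j
    exact propext (SMT.slotOK_congr C G R h p j)
  unfold layerList
  rw [e]

theorem layerList_length (C : SMT.TCert T U N) (G : Geo Pos Dir (Fin N → ZMod D))
    (R : SMT.TRoles N D U C.cell) (P : Fin N → Dir) (i : ℕ) (τ : Γ)
    (W W' : WW Pos Dir T N D Γ) :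
    (layerList C G R P i τ W).length = (layerList C G R P i τ W').length := by
  unfold layerList
  rw [List.length_map, List.length_map]

theorem before_congr [Fintype Γ] (C : SMT.TCert T U N) (G : Geo Pos Dir (Fin N → ZMod D))
    (R : SMT.TRoles N D U C.cell) {P P' : Fin N → Dir} (q : Fin N × Γ)
    (h : ∀ l : Fin N, l < q.1 → P l = P' l) (X : Fin N → Γ → WW Pos Dir T N D Γ) :
    before C G R P X q = before C G R P' X q := by
  unfold before
  rw [List.flatMap_def, List.flatMap_def]
  congr 1
  refine List.map_congr_left (fun q' hq' => ?_)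
  exact layerList_congr C G R (fun l hl => h l (lt_of_lt_of_le (Fin.lt_def.2 hl)
    (before_le q q' hq'))) _ _

theorem before_length [Fintype Γ] (C : SMT.TCert T U N) (G : Geo Pos Dir (Fin N → ZMod D))
    (R : SMT.TRoles N D U C.cell) (P : Fin N → Dir) (X X' : Fin N → Γ → WW Pos Dir T N D Γ)
    (q : Fin N × Γ) :
    (before C G R P X q).length = (before C G R P X' q).length := by
  unfold before
  rw [List.length_flatMap, List.length_flatMap]
  congr 1
  exact List.map_congr_left (fun q' _ => layerList_length C G R P _ _ _ _)

theorem stream_length [Fintype Γ] (C : SMT.TCert T U N) (G : Geo Pos Dir (Fin N → ZMod D))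
    (R : SMT.TRoles N D U C.cell) (P : Fin N → Dir) (X X' : Fin N → Γ → WW Pos Dir T N D Γ) :
    (stream C G R P X).length = (stream C G R P X').length := by
  unfold stream
  rw [List.length_append, List.length_append, List.length_flatMap, List.length_flatMap]
  congr 2
  exact List.map_congr_left (fun q' _ => layerList_length C G R P _ _ _ _)

end SOS
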