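import Pool.Agent.SMG.AVG
import Pool.Agent.SOS.COL
import Pool.Agent.SOS.LAY

/-! GAV: a fixed layer rarely fails to collide.

`SMG.avg_update q.1 q.1` (`Pool/Agent/SMG/AVG.lean`) with `Bad θ := ¬ Coll .. θ.1 θ.2 q`: fix all
special directions and all words but that of phase `q.1`; `(before ..).length` does not depend on the
words (`before_length`), and `Bad` implies the event of `col_fun` with
`F s W = A.runFrom t s (layerList .. q.1 q.2 W)` and the memory `s` at the beginning of the layer. -/

namespace SOS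

open SMG

theorem coll_avg {Pos Dir T U Γ : Type} {N D : ℕ} [Fintype Pos] [Nonempty Pos] [Fintype Dir]
    [Nonempty Dir] [Fintype T] [Nonempty T] [Fintype Γ] [AddCommGroup Γ] [DecidableEq Γ] [NeZero D]
    (C : SMT.TCert T U N)
    (G : Geo Pos Dir (Fin N → ZMod D)) (R : SMT.TRoles N D U C.cell) {b : ℕ}
    (A : NAlg (VV Pos T Γ) b) (c c' : Γ → Γ) (ρ : ℕ) (q : Fin N × Γ) :
    (Nat.card {θ : Par Pos Dir T N D Γ // ¬ Coll C G R A c c' ρ θ.1 θ.2 q} : ℝ) ≤
      (4 : ℝ) ^ b * Real.exp (-((ρ : ℝ) ^ 2 /
        (2 * (Nat.card Dir * Nat.card (KK Pos T N D))))) *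
        Nat.card (Par Pos Dir T N D Γ) := by
  classical
  have hne : Nonempty (WW Pos Dir T N D Γ) := ⟨fun _ => 0⟩
  let fW : Fintype (WW Pos Dir T N D Γ) := Fintype.ofFinite _
  obtain ⟨i, τ⟩ := q
  have hcardι : (Fintype.card (Dir × KK Pos T N D) : ℝ) =
      (Nat.card Dir : ℝ) * (Nat.card (KK Pos T N D) : ℝ) := by
    rw [← Nat.card_eq_fintype_card, Nat.card_prod]
    push_cast
    rfl
  have hcardW : (Nat.card (WW Pos Dir T N D Γ) : ℝ) =
      (Fintype.card Γ : ℝ) ^ Fintype.card (Dir × KK Pos T N D) := by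
    have h1 : Nat.card (WW Pos Dir T N D Γ) =
        Nat.card Γ ^ Nat.card (Dir × KK Pos T N D) := Nat.card_fun
    rw [h1, Nat.card_eq_fintype_card, Nat.card_eq_fintype_card]
    push_cast
    rfl
  refine avg_update i i (fun θ : Par Pos Dir T N D Γ => ¬ Coll C G R A c c' ρ θ.1 θ.2 (i, τ))
    ((4 : ℝ) ^ b * Real.exp (-((ρ : ℝ) ^ 2 /
        (2 * (Nat.card Dir * Nat.card (KK Pos T N D)))))) ?_
  rintro ⟨P, Y⟩
  have hone : ∀ p : Dir, ((Finset.univ.filter (fun y : WW Pos Dir T N D Γ =>
      ¬ Coll C G R A c c' ρ (Function.update P i p) (Function.update Y i y) (i, τ))).card : ℝ) ≤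
      (4 : ℝ) ^ b * Real.exp (-((ρ : ℝ) ^ 2 /
        (2 * (Nat.card Dir * Nat.card (KK Pos T N D))))) *
        Nat.card (WW Pos Dir T N D Γ) := by
    intro p
    obtain ⟨t, ht⟩ : ∃ t : ℕ, ∀ X : Fin N → Γ → WW Pos Dir T N D Γ,
        (before C G R (Function.update P i p) X (i, τ)).length = t :=
      ⟨_, fun X => before_length C G R (Function.update P i p) X (fun _ _ _ => 0) (i, τ)⟩
    have hcol := col_fun (ι := Dir × KK Pos T N D) (Γ := Γ) (S := Fin (2 ^ b))
      (fun s W => A.runFrom t s (layerList C G R (Function.update P i p) (i : ℕ) τ W))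
      (fun _ => c τ) (fun _ => c' τ) ρ
    have h4 : ((Fintype.card (Fin (2 ^ b)) : ℕ) : ℝ) ^ 2 = (4 : ℝ) ^ b := by
      rw [Fintype.card_fin]
      push_cast
      rw [← pow_mul, mul_comm, pow_mul]
      norm_num
    rw [h4, hcardι, ← hcardW] at hcol
    have h5 : ((Finset.univ.filter (fun y : WW Pos Dir T N D Γ =>
      ¬ Coll C G R A c c' ρ (Function.update P i p) (Function.update Y i y) (i, τ))).card : ℝ) ≤
      (Nat.card {y : WW Pos Dir T N D Γ // ∃ s : Fin (2 ^ b), ∀ z : WW Pos Dir T N D Γ,
        A.runFrom t s (layerList C G R (Function.update P i p) (i : ℕ) τ z) =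
          A.runFrom t s (layerList C G R (Function.update P i p) (i : ℕ) τ
            (y + fun _ => c τ)) →
        ρ < hammingDist z (y + fun _ => c' τ)} : ℝ) := by
      rw [Nat.card_eq_fintype_card, Fintype.card_subtype]
      norm_cast
      refine Finset.card_le_card ?_
      intro y hy
      rw [Finset.mem_filter] at hy ⊢
      refine ⟨Finset.mem_univ _, A.runFrom 0 A.init (before C G R (Function.update P i p)
        (canon c (Function.update Y i y)) (i, τ)), ?_⟩
      intro z hz
      by_contra hlt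
      apply hy.2
      have hcan : ∀ c₀ : Γ → Γ, canon c₀ (Function.update Y i y) i τ = y + fun _ => c₀ τ := by
        intro c₀
        funext k
        show Function.update Y i y i k + c₀ τ = y k + c₀ τ
        rw [Function.update_self]
      refine ⟨z, ?_, ?_⟩
      · unfold after
        rw [ht]
        show A.runFrom t _ (layerList C G R (Function.update P i p) (i : ℕ) τ z) =
          A.runFrom t _ (layerList C G R (Function.update P i p) (i : ℕ) τ
            (canon c (Function.update Y i y) i τ))
        rw [hcan c]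
        exact hz
      · show hammingDist z (canon c' (Function.update Y i y) i τ) ≤ ρ
        rw [hcan c']
        exact not_lt.1 hlt
    refine h5.trans (hcol.trans (le_of_eq ?_))
    ring
  have hcard : Nat.card {s : Dir × WW Pos Dir T N D Γ //
      ¬ Coll C G R A c c' ρ (Function.update P i s.1) (Function.update Y i s.2) (i, τ)} =
      ∑ p : Dir, (Finset.univ.filter (fun y : WW Pos Dir T N D Γ =>
        ¬ Coll C G R A c c' ρ (Function.update P i p) (Function.update Y i y) (i, τ))).card := by
    rw [Nat.card_eq_fintype_card, Fintype.card_subtype, Finset.card_filter,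
      Fintype.sum_prod_type]
    refine Finset.sum_congr rfl (fun p _ => ?_)
    rw [Finset.card_filter]
  show (Nat.card {s : Dir × WW Pos Dir T N D Γ //
      ¬ Coll C G R A c c' ρ (Function.update P i s.1) (Function.update Y i s.2) (i, τ)} : ℝ) ≤ _
  rw [hcard]
  push_cast
  refine (Finset.sum_le_sum (fun p _ => hone p)).trans ?_
  rw [Finset.sum_const, nsmul_eq_mul, Finset.card_univ, ← Nat.card_eq_fintype_card]
  apply le_of_eq
  ring

end SOS
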