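import Pool.Agent.SOS.PCK

/-! NSE: the total noise over all directions.

`∑ p, noise X Y p = ∑ τ, hammingDist (X τ) (Y τ)`: both are the number of triples `(τ, p, k)` with
`X τ (p, k) ≠ Y τ (p, k)`. Then `pick_dist`. -/

namespace SOS

open SMG

variable {Pos Dir T U Γ : Type} {N D : ℕ} [Fintype Pos] [Fintype Dir] [Fintype T]
    [Fintype Γ] [DecidableEq Γ] [NeZero D]

theorem noise_sum (X Y : Γ → WW Pos Dir T N D Γ) :
    ∑ p : Dir, noise X Y p = ∑ τ : Γ, hammingDist (X τ) (Y τ) := by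
  classical
  have h1 : ∀ p : Dir, noise X Y p =
      ∑ τ : Γ, ∑ k : KK Pos T N D, if X τ (p, k) ≠ Y τ (p, k) then 1 else 0 := by
    intro p
    unfold noise
    rw [Nat.card_eq_fintype_card, Fintype.card_subtype, Finset.card_filter,
      Fintype.sum_prod_type]
  have h2 : ∀ τ : Γ, hammingDist (X τ) (Y τ) =
      ∑ p : Dir, ∑ k : KK Pos T N D, if X τ (p, k) ≠ Y τ (p, k) then 1 else 0 := by
    intro τ
    unfold hammingDist
    rw [Finset.card_filter, Fintype.sum_prod_type]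
  rw [Finset.sum_congr rfl fun p _ => h1 p, Finset.sum_congr rfl fun τ _ => h2 τ,
    Finset.sum_comm]

theorem colX_noise [Add Γ] (C : SMT.TCert T U N)
    (G : Geo Pos Dir (Fin N → ZMod D)) (R : SMT.TRoles N D U C.cell) {b : ℕ}
    (A : NAlg (VV Pos T Γ) b) (c c' : Γ → Γ) (ρ : ℕ) (P : Fin N → Dir)
    (Y : Fin N → WW Pos Dir T N D Γ) (i : Fin N) :
    ∑ p : Dir, noise (colX C G R A c c' ρ P Y i) (canon c' Y i) p ≤ Fintype.card Γ * ρ := by
  rw [noise_sum]
  calc ∑ τ : Γ, hammingDist (colX C G R A c c' ρ P Y i τ) (canon c' Y i τ)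
      ≤ ∑ _τ : Γ, ρ := Finset.sum_le_sum fun τ _ => pick_dist _ _ _ _
    _ = _ := by rw [Finset.sum_const, Finset.card_univ, smul_eq_mul]

end SOS
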