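import Pool.Agent.SMG.AVG
import Pool.Agent.SOS.NSE
import Pool.Agent.SOS.CGR

/-! NAV: a random special direction has little noise.

`SMG.avg_update i j` (`Pool/Agent/SMG/AVG.lean`; `X := WW ..`, `Bad θ := B ≤ noise (colX .. θ.1 θ.2 i)
(canon c' θ.2 i) (θ.1 j)`, `η := |Γ| ρ / (B |Dir|)`): fix the word `y` of phase `i`; by
`colX_congr` (as `i ≤ j`) the words `colX .. (update P j p) (update Y i y) i` do not depend on `p`, so
by `colX_noise` at most `|Γ| ρ / B` directions `p` have noise at least `B` (Markov). -/

namespace SOS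

open SMG

theorem noise_avg {Pos Dir T U Γ : Type} {N D : ℕ} [Fintype Pos] [Fintype Dir] [Nonempty Dir]
    [Fintype T] [Fintype Γ] [AddCommGroup Γ] [DecidableEq Γ] [NeZero D] (C : SMT.TCert T U N)
    (G : Geo Pos Dir (Fin N → ZMod D)) (R : SMT.TRoles N D U C.cell) {b : ℕ}
    (A : NAlg (VV Pos T Γ) b) (c c' : Γ → Γ) (ρ B : ℕ) (hB : 0 < B) (i j : Fin N) (hij : i ≤ j) :
    (Nat.card {θ : Par Pos Dir T N D Γ //
        B ≤ noise (colX C G R A c c' ρ θ.1 θ.2 i) (canon c' θ.2 i) (θ.1 j)} : ℝ) ≤
      (Fintype.card Γ : ℝ) * ρ / (B * Nat.card Dir) * Nat.card (Par Pos Dir T N D Γ) := by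
  classical
  have hBR : (0 : ℝ) < B := by exact_mod_cast hB
  have hD : (0 : ℝ) < (Nat.card Dir : ℝ) := by exact_mod_cast Nat.card_pos
  have hne : Nonempty (WW Pos Dir T N D Γ) := ⟨fun _ => 0⟩
  let fW : Fintype (WW Pos Dir T N D Γ) := Fintype.ofFinite _
  refine avg_update i j (fun θ : Par Pos Dir T N D Γ =>
    B ≤ noise (colX C G R A c c' ρ θ.1 θ.2 i) (canon c' θ.2 i) (θ.1 j))
    ((Fintype.card Γ : ℝ) * ρ / (B * Nat.card Dir)) ?_
  rintro ⟨P, Y⟩
  have hcol : ∀ (p : Dir) (y : WW Pos Dir T N D Γ),
      colX C G R A c c' ρ (Function.update P j p) (Function.update Y i y) i =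
        colX C G R A c c' ρ P (Function.update Y i y) i := by
    intro p y
    refine colX_congr C G R A c c' ρ _ i (fun l hl => ?_)
    refine Function.update_of_ne ?_ _ _
    intro e
    rw [e] at hl
    exact absurd (lt_of_lt_of_le hl hij) (lt_irrefl _)
  have hone : ∀ y : WW Pos Dir T N D Γ,
      B * (Finset.univ.filter (fun p : Dir =>
        B ≤ noise (colX C G R A c c' ρ P (Function.update Y i y) i)
          (canon c' (Function.update Y i y) i) p)).card ≤ Fintype.card Γ * ρ := by
    intro y
    refine le_trans ?_ (colX_noise C G R A c c' ρ P (Function.update Y i y) i)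
    calc B * (Finset.univ.filter (fun p : Dir =>
          B ≤ noise (colX C G R A c c' ρ P (Function.update Y i y) i)
            (canon c' (Function.update Y i y) i) p)).card
        = ∑ _p ∈ Finset.univ.filter (fun p : Dir =>
          B ≤ noise (colX C G R A c c' ρ P (Function.update Y i y) i)
            (canon c' (Function.update Y i y) i) p), B := by
          rw [Finset.sum_const, smul_eq_mul, mul_comm]
      _ ≤ ∑ p ∈ Finset.univ.filter (fun p : Dir =>
          B ≤ noise (colX C G R A c c' ρ P (Function.update Y i y) i)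
            (canon c' (Function.update Y i y) i) p),
          noise (colX C G R A c c' ρ P (Function.update Y i y) i)
            (canon c' (Function.update Y i y) i) p :=
          Finset.sum_le_sum (fun p hp => (Finset.mem_filter.1 hp).2)
      _ ≤ _ := Finset.sum_le_sum_of_subset (Finset.filter_subset _ _)
  have hcard : Nat.card {s : Dir × WW Pos Dir T N D Γ //
      B ≤ noise (colX C G R A c c' ρ (Function.update P j s.1) (Function.update Y i s.2) i)
        (canon c' (Function.update Y i s.2) i) (Function.update P j s.1 j)} =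
      ∑ y : WW Pos Dir T N D Γ, (Finset.univ.filter (fun p : Dir =>
        B ≤ noise (colX C G R A c c' ρ P (Function.update Y i y) i)
          (canon c' (Function.update Y i y) i) p)).card := by
    rw [Nat.card_eq_fintype_card, Fintype.card_subtype, Finset.card_filter,
      Fintype.sum_prod_type_right]
    refine Finset.sum_congr rfl (fun y _ => ?_)
    rw [Finset.card_filter]
    refine Finset.sum_congr rfl (fun p _ => ?_)
    rw [hcol p y, Function.update_self]
  show (Nat.card {s : Dir × WW Pos Dir T N D Γ //
      B ≤ noise (colX C G R A c c' ρ (Function.update P j s.1) (Function.update Y i s.2) i)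
        (canon c' (Function.update Y i s.2) i) (Function.update P j s.1 j)} : ℝ) ≤ _
  rw [hcard]
  push_cast
  have hle : ∀ y : WW Pos Dir T N D Γ, ((Finset.univ.filter (fun p : Dir =>
        B ≤ noise (colX C G R A c c' ρ P (Function.update Y i y) i)
          (canon c' (Function.update Y i y) i) p)).card : ℝ) ≤ (Fintype.card Γ : ℝ) * ρ / B := by
    intro y
    rw [le_div_iff₀ hBR]
    have := hone y
    have h2 : ((B * (Finset.univ.filter (fun p : Dir =>
        B ≤ noise (colX C G R A c c' ρ P (Function.update Y i y) i)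
          (canon c' (Function.update Y i y) i) p)).card : ℕ) : ℝ) ≤
        ((Fintype.card Γ * ρ : ℕ) : ℝ) := by exact_mod_cast this
    push_cast at h2
    linarith
  refine (Finset.sum_le_sum (fun y _ => hle y)).trans ?_
  rw [Finset.sum_const, nsmul_eq_mul, Finset.card_univ, ← Nat.card_eq_fintype_card]
  apply le_of_eq
  field_simp

end SOS
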