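import Pool.Agent.SOS.OEQ
import Pool.Agent.SOS.NAV
import Pool.Agent.SOS.GAV

/-! CNT: the union bound over all bad events.

If `S θ` then `θ.1` is not injective (`SMG.noninj_count`), or some layer does not collide
(`coll_avg`, `N |Γ|` layers), or some noise is at least `B` (`noise_avg`, at most `N^2` pairs):
otherwise `output_eq` and `hS` give a contradiction. (Compare the end of `SMT.core`.) -/

namespace SOS

open SMG

/-- union bound for three kinds of events -/
private theorem card_le_three {Ω ι κ : Type} [Finite Ω] [Fintype ι] [Fintype κ]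
    (S A : Ω → Prop) (B : ι → Ω → Prop) (C : κ → Ω → Prop)
    (h : ∀ ω, S ω → A ω ∨ (∃ i, B i ω) ∨ (∃ k, C k ω)) :
    (Nat.card {ω // S ω} : ℝ) ≤ (Nat.card {ω // A ω} : ℝ) +
      ∑ i, (Nat.card {ω // B i ω} : ℝ) + ∑ k, (Nat.card {ω // C k ω} : ℝ) := by
  classical
  haveI := Fintype.ofFinite Ω
  have e : ∀ P : Ω → Prop, Nat.card {ω // P ω} = (Finset.univ.filter P).card := by
    intro P
    rw [Nat.card_eq_fintype_card, Fintype.card_subtype]
  have key : Nat.card {ω // S ω} ≤ Nat.card {ω // A ω} +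
      ∑ i, Nat.card {ω // B i ω} + ∑ k, Nat.card {ω // C k ω} := by
    rw [e S, e A, Finset.sum_congr rfl (fun i _ => e (B i)), Finset.sum_congr rfl (fun k _ => e (C k))]
    have h1 : Finset.univ.filter S ⊆ (Finset.univ.filter A ∪
        Finset.univ.biUnion (fun i => Finset.univ.filter (B i))) ∪
        Finset.univ.biUnion (fun k => Finset.univ.filter (C k)) := by
      intro ω hω
      simp only [Finset.mem_filter, Finset.mem_univ, true_and] at hω
      simp only [Finset.mem_union, Finset.mem_filter, Finset.mem_univ, true_and,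
        Finset.mem_biUnion]
      rcases h ω hω with h | h | h
      · exact Or.inl (Or.inl h)
      · exact Or.inl (Or.inr h)
      · exact Or.inr h
    refine (Finset.card_le_card h1).trans ((Finset.card_union_le _ _).trans ?_)
    exact Nat.add_le_add ((Finset.card_union_le _ _).trans
      (Nat.add_le_add_left Finset.card_biUnion_le _)) Finset.card_biUnion_le
  exact_mod_cast key

theorem count {Pos Dir T U Γ : Type} {N D : ℕ} [Fintype Pos] [Nonempty Pos] [Fintype Dir]
    [Nonempty Dir] [Fintype T] [Nonempty T] [Fintype Γ] [AddCommGroup Γ] [DecidableEq Γ] [NeZero D]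
    (C : SMT.TCert T U N)
    (G : Geo Pos Dir (Fin N → ZMod D)) (R : SMT.TRoles N D U C.cell) {b : ℕ}
    (A : NAlg (VV Pos T Γ) b) (c c' : Γ → Γ) (ρ B : ℕ) (hB : 0 < B)
    (S : Par Pos Dir T N D Γ → Prop)
    (hS : ∀ θ : Par Pos Dir T N D Γ, S θ → Function.Injective θ.1 →
      A.output (stream C G R θ.1 (colX C G R A c c' ρ θ.1 θ.2)) =
        A.output (stream C G R θ.1 (canon c θ.2)) →
      (∀ i j : Fin N, i ≤ j →
        noise (colX C G R A c c' ρ θ.1 θ.2 i) (canon c' θ.2 i) (θ.1 j) < B) → False) :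
    (Nat.card {θ : Par Pos Dir T N D Γ // S θ} : ℝ) ≤
      ((N : ℝ) ^ 2 / Nat.card Dir +
        (N * Fintype.card Γ : ℝ) * ((4 : ℝ) ^ b * Real.exp (-((ρ : ℝ) ^ 2 /
          (2 * (Nat.card Dir * Nat.card (KK Pos T N D)))))) +
        (N : ℝ) ^ 2 * ((Fintype.card Γ : ℝ) * ρ / (B * Nat.card Dir))) *
      Nat.card (Par Pos Dir T N D Γ) := by
  classical
  haveI : Fintype (WW Pos Dir T N D Γ) := Fintype.ofFinite _
  haveI : Nonempty (WW Pos Dir T N D Γ) := ⟨fun _ => 0⟩
  have h1 := noninj_count N (Dir := Dir) (X := WW Pos Dir T N D Γ)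
  have h2 := card_le_three (Ω := Par Pos Dir T N D Γ) (ι := Fin N × Γ) (κ := Fin N × Fin N) S
    (fun θ => ¬ Function.Injective θ.1)
    (fun q θ => ¬ Coll C G R A c c' ρ θ.1 θ.2 q)
    (fun ij θ => ij.1 ≤ ij.2 ∧
      B ≤ noise (colX C G R A c c' ρ θ.1 θ.2 ij.1) (canon c' θ.2 ij.1) (θ.1 ij.2)) (by
      intro θ hθ
      by_cases hinj : Function.Injective θ.1
      · by_cases hcol : ∀ q, Coll C G R A c c' ρ θ.1 θ.2 q
        · refine Or.inr (Or.inr ?_)
          by_contra hno
          push Not at hno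
          exact hS θ hθ hinj (output_eq C G R A c c' ρ θ.1 θ.2 hcol)
            (fun i j hij => hno (i, j) hij)
        · push Not at hcol
          exact Or.inr (Or.inl hcol)
      · exact Or.inl hinj)
  have h3 : ∑ q : Fin N × Γ, (Nat.card {θ : Par Pos Dir T N D Γ //
        ¬ Coll C G R A c c' ρ θ.1 θ.2 q} : ℝ) ≤
      (N * Fintype.card Γ : ℝ) * ((4 : ℝ) ^ b * Real.exp (-((ρ : ℝ) ^ 2 /
          (2 * (Nat.card Dir * Nat.card (KK Pos T N D)))))) * Nat.card (Par Pos Dir T N D Γ) := by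
    calc _ ≤ ∑ _q : Fin N × Γ, ((4 : ℝ) ^ b * Real.exp (-((ρ : ℝ) ^ 2 /
          (2 * (Nat.card Dir * Nat.card (KK Pos T N D))))) * Nat.card (Par Pos Dir T N D Γ)) :=
          Finset.sum_le_sum (fun q _ => coll_avg C G R A c c' ρ q)
      _ = _ := by
          rw [Finset.sum_const, Finset.card_univ, Fintype.card_prod, Fintype.card_fin,
            nsmul_eq_mul]
          push_cast
          ring
  have hP0 : (0 : ℝ) ≤ (Fintype.card Γ : ℝ) * ρ / (B * Nat.card Dir) *
      Nat.card (Par Pos Dir T N D Γ) := by positivity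
  have h4 : ∑ ij : Fin N × Fin N, (Nat.card {θ : Par Pos Dir T N D Γ // ij.1 ≤ ij.2 ∧
      B ≤ noise (colX C G R A c c' ρ θ.1 θ.2 ij.1) (canon c' θ.2 ij.1) (θ.1 ij.2)} : ℝ) ≤
      (N : ℝ) ^ 2 * ((Fintype.card Γ : ℝ) * ρ / (B * Nat.card Dir)) *
        Nat.card (Par Pos Dir T N D Γ) := by
    calc _ ≤ ∑ _ij : Fin N × Fin N, ((Fintype.card Γ : ℝ) * ρ / (B * Nat.card Dir) *
          Nat.card (Par Pos Dir T N D Γ)) := by
          refine Finset.sum_le_sum (fun ij _ => ?_)
          by_cases hij : ij.1 ≤ ij.2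
          · refine le_trans ?_ (noise_avg C G R A c c' ρ B hB ij.1 ij.2 hij)
            have : Nat.card {θ : Par Pos Dir T N D Γ // ij.1 ≤ ij.2 ∧
                B ≤ noise (colX C G R A c c' ρ θ.1 θ.2 ij.1) (canon c' θ.2 ij.1) (θ.1 ij.2)} ≤
                Nat.card {θ : Par Pos Dir T N D Γ //
                B ≤ noise (colX C G R A c c' ρ θ.1 θ.2 ij.1) (canon c' θ.2 ij.1) (θ.1 ij.2)} := by
              apply Nat.card_le_card_of_injective
                (fun θ => (⟨θ.1, θ.2.2⟩ : {θ : Par Pos Dir T N D Γ //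
                  B ≤ noise (colX C G R A c c' ρ θ.1 θ.2 ij.1) (canon c' θ.2 ij.1) (θ.1 ij.2)}))
              intro x y hxy
              exact Subtype.ext (by simpa using hxy)
            exact_mod_cast this
          · have : Nat.card {θ : Par Pos Dir T N D Γ // ij.1 ≤ ij.2 ∧
                B ≤ noise (colX C G R A c c' ρ θ.1 θ.2 ij.1) (canon c' θ.2 ij.1) (θ.1 ij.2)} = 0 := by
              have : IsEmpty {θ : Par Pos Dir T N D Γ // ij.1 ≤ ij.2 ∧
                B ≤ noise (colX C G R A c c' ρ θ.1 θ.2 ij.1) (canon c' θ.2 ij.1) (θ.1 ij.2)} :=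
                ⟨fun θ => hij θ.2.1⟩
              exact Nat.card_of_isEmpty
            rw [this]
            simpa using hP0
      _ = _ := by
          rw [Finset.sum_const, Finset.card_univ, Fintype.card_prod, Fintype.card_fin,
            nsmul_eq_mul]
          push_cast
          ring
  calc (Nat.card {θ : Par Pos Dir T N D Γ // S θ} : ℝ)
      ≤ _ := h2
    _ ≤ (N : ℝ) ^ 2 / Nat.card Dir * Nat.card (Par Pos Dir T N D Γ) +
        (N * Fintype.card Γ : ℝ) * ((4 : ℝ) ^ b * Real.exp (-((ρ : ℝ) ^ 2 /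
          (2 * (Nat.card Dir * Nat.card (KK Pos T N D)))))) * Nat.card (Par Pos Dir T N D Γ) +
        (N : ℝ) ^ 2 * ((Fintype.card Γ : ℝ) * ρ / (B * Nat.card Dir)) *
          Nat.card (Par Pos Dir T N D Γ) := add_le_add (add_le_add h1 h3) h4
    _ = _ := by ring

end SOS
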