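import Pool.Agent.SOS.NDP
import Pool.Agent.SMG.RUN

/-! HID: if the letters are (nearly) `Y + τ`, the graph has a large matching.
(Compare `SMT.hidden`, `Pool/Agent/SMT/HID.lean`: almost the same proof with `Γ` in place of `Bool`.)

Index the hidden edges by `m ∈ C.M` (with its phase `ix m`), a clean position `x` with unit `m.1.2`
and `τ : Γ`: the edge `(x, m.1.1, τ) - (g m x, m.2.1, Y (ix m) (P (ix m), k) + τ)`; it is in the
stream if `(τ, k)` is not in the noise of `P (ix m)`; the map from the removed edges to the pairs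
`(i, (τ, k))` is injective (`k` contains `x` and `m.1.1`, and `m.1.2` is the unit of `x`), so at
most `∑_i noise` edges are removed. For a fixed slot the map `τ ↦ Y + τ` is injective, so the edges
are pairwise disjoint, and they avoid the closed vertices with their pendants. -/

namespace SOS

open SMG

/-- A family of pairwise disjoint edges of the stream, indexed by a finite type. -/
private theorem hid_family {V I : Type} [Fintype I] (σ : List (Sym2 V)) (e : I → Sym2 V)
    (h1 : ∀ i, e i ∈ σ) (h2 : ∀ i j v, v ∈ e i → v ∈ e j → i = j) :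
    Fintype.card I ≤ nu σ := by
  classical
  have hinj : Function.Injective e := by
    intro i j hij
    have hv : (e i).out.1 ∈ e i := Sym2.out_fst_mem _
    exact h2 i j _ hv (hij ▸ hv)
  have h3 := le_nu σ (Finset.univ.image e)
    (by
      intro x hx
      obtain ⟨i, -, rfl⟩ := Finset.mem_image.1 hx
      exact h1 i)
    (by
      intro x hx y hy v hvx hvy
      obtain ⟨i, -, rfl⟩ := Finset.mem_image.1 hx
      obtain ⟨j, -, rfl⟩ := Finset.mem_image.1 hy
      rw [h2 i j v hvx hvy])
  rwa [Finset.card_image_of_injective _ hinj, Finset.card_univ] at h3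

/-- Positions outside `nonclean` are good in all special directions. -/
private theorem hid_good {Pos Dir : Type} {N D : ℕ} (G : Geo Pos Dir (Fin N → ZMod D))
    (P : Fin N → Dir) (i : Fin N) (x : Pos) (hx : x ∉ nonclean G P i) (l : Fin N) :
    G.good (P l) x := by
  by_contra h
  exact hx ⟨x, rfl, l, h⟩

theorem lower {Pos Dir T U Γ : Type} {N D : ℕ} [Fintype Pos] [Fintype Dir] [Fintype T] [Fintype Γ]
    [AddCommGroup Γ] [NeZero D] (C : SMT.TCert T U N)
    (G : Geo Pos Dir (Fin N → ZMod D)) (R : SMT.TRoles N D U C.cell)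
    (P : Fin N → Dir) (hP : Function.Injective P) (X : Fin N → Γ → WW Pos Dir T N D Γ)
    (Y : Fin N → WW Pos Dir T N D Γ) (c : ℕ)
    (hc : ∀ (i : Fin N) (u : U),
      c ≤ Nat.card {x // x ∉ nonclean G P i ∧ SMT.unitOf C G R P x = u}) (B : ℕ)
    (hB : ∀ i : Fin N, noise (X i) (canon id Y i) (P i) ≤ B) :
    (Zset (Γ := Γ) C G R P).card + Fintype.card Γ * C.h * c ≤ nu (stream C G R P X) + N * B := by
  classical
  have hD : 0 < D := Nat.pos_of_ne_zero (NeZero.ne D)
  have hix : ∀ m : {m // m ∈ C.M}, ∃ i : Fin N,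
      C.cell (i : ℕ) m.1.1.2 = C.cell (i : ℕ) m.1.2.2 ∧
        C.join (i : ℕ) m.1.1.2 m.1.1.1 m.1.2.1 := by
    intro m
    obtain ⟨-, -, i, hi, h1, h2⟩ := C.M_spec m.1 m.2
    exact ⟨⟨i, hi⟩, h1, h2⟩
  choose ix hixc hixj using hix
  have hg : ∀ m : {m // m ∈ C.M},
      ∃ g : {x // x ∉ nonclean G P (ix m) ∧ SMT.unitOf C G R P x = m.1.1.2} ≃
        {x // x ∉ nonclean G P (ix m) ∧ SMT.unitOf C G R P x = m.1.2.2},
      ∀ x, G.blk (P (ix m)) (g x).1 = G.blk (P (ix m)) x.1 := by
    intro m
    exact SMT.partner C G R hD P hP (ix m) m.1.1.2 m.1.2.2 (hixc m)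
  choose g hgb using hg
  let J : Type := Σ m : {m // m ∈ C.M},
    ({x // x ∉ nonclean G P (ix m) ∧ SMT.unitOf C G R P x = m.1.1.2} × Γ)
  -- the key of the slot of an index
  let kk : J → KK Pos T N D := fun j => key G (P (ix j.1))
    ((j.2.1.1, j.1.1.1.1), ((g j.1 j.2.1).1, j.1.1.2.1))
  let ltr : J → Γ := fun j => Y (ix j.1) (P (ix j.1), kk j) + j.2.2
  let ee : J → Sym2 (VV Pos T Γ) := fun j =>
    edg j.2.1.1 j.1.1.1.1 j.2.2 (g j.1 j.2.1).1 j.1.1.2.1 (ltr j)
  -- the indices whose letter is right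
  let ok : J → Prop := fun j => X (ix j.1) j.2.2 (P (ix j.1), kk j) = ltr j
  have hee : ∀ j : J, ok j → ee j ∈ stream C G R P X := by
    intro j hj
    obtain ⟨ho, ho', -⟩ := C.M_spec j.1.1 j.1.2
    have hux : SMT.unitOf C G R P j.2.1.1 = j.1.1.1.2 := j.2.1.2.2
    have hugx : SMT.unitOf C G R P (g j.1 j.2.1).1 = j.1.1.2.2 := (g j.1 j.2.1).2.2
    rw [mem_stream]
    left
    refine ⟨ix j.1, P (ix j.1), ((j.2.1.1, j.1.1.1.1), ((g j.1 j.2.1).1, j.1.1.2.1)), j.2.2,
      ⟨?_, ?_, ?_, ?_, (hgb j.1 j.2.1).symm⟩, ?_⟩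
    · intro l hl h
      have hil : ix j.1 = l := hP h
      subst hil
      exact lt_irrefl _ hl
    · show C.join _ (SMT.unitOf C G R P j.2.1.1) _ _
      rw [hux]; exact hixj j.1
    · show C.cell _ (SMT.unitOf C G R P j.2.1.1) = C.cell _ (SMT.unitOf C G R P (g j.1 j.2.1).1)
      rw [hux, hugx]; exact hixc j.1
    · intro hxx
      have hxx' : j.2.1.1 = (g j.1 j.2.1).1 := hxx
      have huu : j.1.1.1.2 = j.1.1.2.2 := by rw [← hux, ← hugx, ← hxx']
      exact C.indep _ j.1.1.1.2 _ _ (hixj j.1) ⟨ho, by rw [huu]; exact ho'⟩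
    · have hj' : X (ix j.1) j.2.2 (P (ix j.1), kk j) = ltr j := hj
      show edg _ _ _ _ _ (ltr j) = edg _ _ _ _ _ (X (ix j.1) j.2.2 (P (ix j.1), kk j))
      rw [hj']
  -- ends of the hidden edges
  have hends : ∀ (j : J) (v : VV Pos T Γ), v ∈ ee j →
      v = Sum.inl (j.2.1.1, j.1.1.1.1, j.2.2) ∨
      v = Sum.inl ((g j.1 j.2.1).1, j.1.1.2.1, ltr j) := by
    intro j v hv
    exact Sym2.mem_iff.1 hv
  have hdisj : ∀ (j j' : J) (v : VV Pos T Γ), v ∈ ee j → v ∈ ee j' → j = j' := by
    rintro ⟨m, x, τ⟩ ⟨m', x', τ'⟩ v hv hv'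
    obtain ⟨ha, hb⟩ := C.join_side _ _ _ _ (hixj m)
    obtain ⟨ha', hb'⟩ := C.join_side _ _ _ _ (hixj m')
    rcases hends _ _ hv with h | h <;> rcases hends _ _ hv' with h' | h'
    · rw [h] at h'
      have h2 := Sum.inl_injective h'
      simp only [Prod.mk.injEq] at h2
      obtain ⟨hxx, haa, hττ⟩ := h2
      have hm : m = m' := by
        apply Subtype.ext
        apply C.M_match m.1 m.2 m'.1 m'.2
        left
        apply Prod.ext haa
        rw [← x.2.2, ← x'.2.2, hxx]
      subst hm
      have hx : x = x' := Subtype.ext hxx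
      subst hx
      subst hττ
      rfl
    · rw [h] at h'
      have h2 := Sum.inl_injective h'
      simp only [Prod.mk.injEq] at h2
      obtain ⟨-, haa, -⟩ := h2
      rw [haa] at ha
      rw [ha] at hb'
      exact absurd hb' (by decide)
    · rw [h] at h'
      have h2 := Sum.inl_injective h'
      simp only [Prod.mk.injEq] at h2
      obtain ⟨-, haa, -⟩ := h2
      rw [haa] at hb
      rw [hb] at ha'
      exact absurd ha' (by decide)
    · rw [h] at h'
      have h2 := Sum.inl_injective h'
      simp only [Prod.mk.injEq] at h2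
      obtain ⟨hxx, haa, hττ⟩ := h2
      have hm : m = m' := by
        apply Subtype.ext
        apply C.M_match m.1 m.2 m'.1 m'.2
        right
        apply Prod.ext haa
        rw [← (g m x).2.2, ← (g m' x').2.2, hxx]
      subst hm
      have hx : x = x' := (g m).injective (Subtype.ext hxx)
      subst hx
      have hτ : τ = τ' := add_left_cancel hττ
      subst hτ
      rfl
  -- hidden ends are not closed
  have hopen : ∀ (j : J) (v : VV Pos T Γ), v ∈ ee j → ∀ w ∈ Zset (Γ := Γ) C G R P,
      v ∉ (s(Sum.inl w, Sum.inr w) : Sym2 (VV Pos T Γ)) := by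
    rintro ⟨m, x, τ⟩ v hv w hw hvw
    obtain ⟨ho, ho', -⟩ := C.M_spec m.1 m.2
    have hw' : (∃ l, ¬ G.good (P l) w.1) ∨ ¬ C.opn (SMT.unitOf C G R P w.1) w.2.1 := by
      have := hw
      unfold Zset at this
      exact (Finset.mem_filter.1 this).2
    rcases Sym2.mem_iff.1 hvw with h | h
    · rcases hends _ _ hv with h' | h'
      · rw [h] at h'
        have h2 := Sum.inl_injective h'
        rw [h2] at hw'
        rcases hw' with ⟨l, hl⟩ | hl
        · exact hl (hid_good G P _ _ x.2.1 l)
        · apply hl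
          show C.opn (SMT.unitOf C G R P x.1) m.1.1.1
          rw [x.2.2]; exact ho
      · rw [h] at h'
        have h2 := Sum.inl_injective h'
        rw [h2] at hw'
        rcases hw' with ⟨l, hl⟩ | hl
        · exact hl (hid_good G P _ _ (g m x).2.1 l)
        · apply hl
          show C.opn (SMT.unitOf C G R P (g m x).1) m.1.2.1
          rw [(g m x).2.2]; exact ho'
    · rcases hends _ _ hv with h' | h' <;> rw [h] at h' <;> exact absurd h' (by simp)
  -- count
  let I : Type := {w // w ∈ Zset (Γ := Γ) C G R P} ⊕ {j : J // ok j}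
  have hcard : Fintype.card I = (Zset (Γ := Γ) C G R P).card + Fintype.card {j : J // ok j} := by
    rw [Fintype.card_sum, Fintype.card_coe]
  have hJ : Fintype.card Γ * C.h * c ≤ Fintype.card J := by
    rw [Fintype.card_sigma]
    have h1 : ∀ m : {m // m ∈ C.M}, Fintype.card Γ * c ≤ Fintype.card
        ({x // x ∉ nonclean G P (ix m) ∧ SMT.unitOf C G R P x = m.1.1.2} × Γ) := by
      intro m
      rw [Fintype.card_prod, mul_comm]
      have := hc (ix m) m.1.1.2
      rw [Nat.card_eq_fintype_card] at this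
      exact Nat.mul_le_mul_right _ this
    calc Fintype.card Γ * C.h * c = ∑ _m : {m // m ∈ C.M}, Fintype.card Γ * c := by
          rw [Finset.sum_const, Finset.card_univ, Fintype.card_coe, smul_eq_mul]
          show Fintype.card Γ * C.M.card * c = _
          ring
      _ ≤ _ := Finset.sum_le_sum (fun m _ => h1 m)
  have hsplit : Fintype.card J = Fintype.card {j : J // ok j} + Fintype.card {j : J // ¬ ok j} := by
    have h := Fintype.card_subtype_compl ok
    have h2 := Fintype.card_subtype_le ok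
    omega
  -- the removed edges
  have hbad : Fintype.card {j : J // ¬ ok j} ≤ N * B := by
    let Q : Type := Σ i : Fin N,
      {q : Γ × KK Pos T N D // X i q.1 (P i, q.2) ≠ canon id Y i q.1 (P i, q.2)}
    let φ : {j : J // ¬ ok j} → Q := fun j => ⟨ix j.1.1, ⟨(j.1.2.2, kk j.1), j.2⟩⟩
    have hφ : Function.Injective φ := by
      rintro ⟨⟨m, x, τ⟩, hj⟩ ⟨⟨m', x', τ'⟩, hj'⟩ h
      have h1 : ((τ, kk ⟨m, x, τ⟩) : Γ × KK Pos T N D) = (τ', kk ⟨m', x', τ'⟩) :=
        congrArg (fun q : Q => q.2.1) h
      have hτ : τ = τ' := congrArg Prod.fst h1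
      have hk : kk ⟨m, x, τ⟩ = kk ⟨m', x', τ'⟩ := congrArg Prod.snd h1
      have hxx : x.1 = x'.1 := congrArg (fun k : KK Pos T N D => k.1) hk
      have haa : m.1.1.1 = m'.1.1.1 := congrArg (fun k : KK Pos T N D => k.2.1) hk
      have hm : m = m' := by
        apply Subtype.ext
        apply C.M_match m.1 m.2 m'.1 m'.2
        left
        apply Prod.ext haa
        rw [← x.2.2, ← x'.2.2, hxx]
      subst hm
      have hx : x = x' := Subtype.ext hxx
      subst hx
      subst hτ
      rfl
    have h1 : Fintype.card {j : J // ¬ ok j} ≤ Fintype.card Q := Fintype.card_le_of_injective φ hφ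
    refine h1.trans ?_
    rw [Fintype.card_sigma]
    calc ∑ i : Fin N, Fintype.card
          {q : Γ × KK Pos T N D // X i q.1 (P i, q.2) ≠ canon id Y i q.1 (P i, q.2)}
        ≤ ∑ _i : Fin N, B := by
          refine Finset.sum_le_sum (fun i _ => ?_)
          have h2 := hB i
          unfold noise at h2
          rwa [Nat.card_eq_fintype_card] at h2
      _ = N * B := by
          rw [Finset.sum_const, Finset.card_univ, Fintype.card_fin, smul_eq_mul]
  have hmain : Fintype.card I ≤ nu (stream C G R P X) := by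
    refine hid_family (stream C G R P X)
      (Sum.elim (fun w : {w // w ∈ Zset (Γ := Γ) C G R P} =>
        (s(Sum.inl w.1, Sum.inr w.1) : Sym2 (VV Pos T Γ))) (fun j : {j : J // ok j} => ee j.1)) ?_ ?_
    · rintro (w | j)
      · rw [mem_stream]
        exact Or.inr ⟨w.1, w.2, rfl⟩
      · exact hee j.1 j.2
    · rintro (w | j) (w' | j') v hv hv'
      · congr 1
        apply Subtype.ext
        rcases Sym2.mem_iff.1 hv with h | h <;> rcases Sym2.mem_iff.1 hv' with h' | h'
        · rw [h] at h'; exact Sum.inl_injective h'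
        · rw [h] at h'; exact absurd h' (by simp)
        · rw [h] at h'; exact absurd h' (by simp)
        · rw [h] at h'; exact Sum.inr_injective h'
      · exact absurd hv (hopen j'.1 v hv' w.1 w.2)
      · exact absurd hv' (hopen j.1 v hv w'.1 w'.2)
      · rw [Subtype.ext (hdisj j.1 j'.1 v hv hv')]
  omega

end SOS
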