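import Pool.Agent.SMT.ZUP
import Pool.Agent.SOS.Defs

/-! ZUP: upper bound for the number of closed vertices. (Compare `SMT.Zset_card`,
`Pool/Agent/SMT/ZUP.lean`: the same proof with `Γ` in place of `Bool`; or deduce it from that
theorem: both sets are `(a set of pairs (position, type)) × Γ` resp. `× Bool`.) -/

namespace SOS

open SMG

theorem Zset_card {Pos Dir T U Γ : Type} {N D : ℕ} [Fintype Pos] [Fintype T] [Fintype U]
    [Nonempty U] [Fintype Γ] (C : SMT.TCert T U N)
    (G : Geo Pos Dir (Fin N → ZMod D)) (R : SMT.TRoles N D U C.cell)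
    (hD : 0 < D) (P : Fin N → Dir) (hP : Function.Injective P) (hN : 0 < N) :
    ((Zset (Γ := Γ) C G R P).card : ℝ) ≤ Fintype.card Γ * (C.z * Nat.card Pos / Nat.card U) +
      Fintype.card Γ * (Nat.card T * Nat.card {x // x ∈ nonclean G P ⟨0, hN⟩}) := by
  classical
  set nc : Set Pos := nonclean G P ⟨0, hN⟩ with hnc
  have hUpos : (0 : ℝ) < (Nat.card U : ℝ) := by
    rw [Nat.card_eq_fintype_card]
    exact_mod_cast Fintype.card_pos
  let S1 : Finset (Vx Pos T Γ) := Finset.univ.filter (fun v => v.1 ∈ nc)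
  let S2 : Finset (Vx Pos T Γ) := Finset.univ.filter
    (fun v => v.1 ∉ nc ∧ ¬ C.opn (SMT.unitOf C G R P v.1) v.2.1)
  have hsub : Zset (Γ := Γ) C G R P ⊆ S1 ∪ S2 := by
    intro v hv
    unfold Zset at hv
    rw [Finset.mem_filter] at hv
    rw [Finset.mem_union, Finset.mem_filter, Finset.mem_filter]
    by_cases hx : v.1 ∈ nc
    · exact Or.inl ⟨Finset.mem_univ _, hx⟩
    · refine Or.inr ⟨Finset.mem_univ _, hx, ?_⟩
      rcases hv.2 with h | h
      · exfalso
        apply hx
        rw [hnc]
        exact ⟨v.1, rfl, h⟩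
      · exact h
  have hcard : (Zset (Γ := Γ) C G R P).card ≤ S1.card + S2.card :=
    (Finset.card_le_card hsub).trans (Finset.card_union_le _ _)
  have hS1 : S1.card = Fintype.card Γ * (Nat.card T * Nat.card {x // x ∈ nc}) := by
    have h1 : S1 = (Finset.univ.filter (fun x : Pos => x ∈ nc)) ×ˢ
        (Finset.univ : Finset (T × Γ)) := by
      ext v
      simp [S1]
    rw [h1, Finset.card_product, Finset.card_univ, Fintype.card_prod,
      Nat.card_eq_fintype_card, Nat.card_eq_fintype_card, Fintype.card_subtype]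
    ring
  have hS2 : S2.card = ∑ x ∈ Finset.univ.filter (fun x : Pos => x ∉ nc),
      Fintype.card Γ * SMT.zcnt C (SMT.unitOf C G R P x) := by
    rw [Finset.card_filter, Fintype.sum_prod_type, Finset.sum_filter]
    apply Finset.sum_congr rfl
    intro x _
    by_cases hx : x ∈ nc
    · simp [hx]
    · simp only [hx, not_false_eq_true, true_and, if_true]
      rw [Fintype.sum_prod_type]
      unfold SMT.zcnt
      rw [Finset.card_filter]
      rw [Finset.mul_sum]
      apply Finset.sum_congr rfl
      intro a _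
      show (∑ _y : Γ, if ¬ C.opn (SMT.unitOf C G R P x) a then 1 else 0) = _
      rw [Finset.sum_const, Finset.card_univ, smul_eq_mul]
  have hS2' : S2.card = ∑ u : U, Nat.card {x // x ∉ nc ∧ SMT.unitOf C G R P x = u} *
      (Fintype.card Γ * SMT.zcnt C u) := by
    rw [hS2, ← Finset.sum_fiberwise (Finset.univ.filter (fun x : Pos => x ∉ nc))
      (fun x => SMT.unitOf C G R P x)]
    apply Finset.sum_congr rfl
    intro u _
    rw [Finset.sum_congr rfl (g := fun _ => Fintype.card Γ * SMT.zcnt C u)
      (fun x hx => by rw [(Finset.mem_filter.mp hx).2]), Finset.sum_const, smul_eq_mul,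
      Nat.card_eq_fintype_card, Fintype.card_subtype, Finset.filter_filter]
  have hcu : ∀ u : U, (Nat.card {x // x ∉ nc ∧ SMT.unitOf C G R P x = u} : ℝ) ≤
      Nat.card Pos / Nat.card U := by
    intro u
    rw [le_div_iff₀ hUpos]
    have h1 := SMT.unit_count C G R hD P hP hN u
    have h2 : Nat.card {x // x ∉ nc ∧ SMT.unitOf C G R P x = u} * Nat.card U ≤ Nat.card Pos := by
      rw [← h1, mul_comm]
      exact Nat.le_add_right _ _
    exact_mod_cast h2
  have hS2r : (S2.card : ℝ) ≤ Fintype.card Γ * (C.z * Nat.card Pos / Nat.card U) := by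
    rw [hS2', SMT.z_eq_sum]
    push_cast
    calc ∑ u : U, (Nat.card {x // x ∉ nc ∧ SMT.unitOf C G R P x = u} : ℝ) * ((Fintype.card Γ : ℝ) * (SMT.zcnt C u : ℝ))
        ≤ ∑ u : U, ((Nat.card Pos : ℝ) / Nat.card U) * ((Fintype.card Γ : ℝ) * (SMT.zcnt C u : ℝ)) := by
          apply Finset.sum_le_sum
          intro u _
          exact mul_le_mul_of_nonneg_right (hcu u) (by positivity)
      _ = Fintype.card Γ * ((∑ u : U, (SMT.zcnt C u : ℝ)) * Nat.card Pos / Nat.card U) := by
          rw [← Finset.mul_sum, ← Finset.mul_sum]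
          ring
  calc ((Zset (Γ := Γ) C G R P).card : ℝ) ≤ ((S1.card + S2.card : ℕ) : ℝ) := by exact_mod_cast hcard
    _ = (S2.card : ℝ) + (S1.card : ℝ) := by push_cast; ring
    _ ≤ Fintype.card Γ * (C.z * Nat.card Pos / Nat.card U) +
        Fintype.card Γ * (Nat.card T * Nat.card {x // x ∈ nc}) := by
        apply add_le_add hS2r
        rw [hS1]
        push_cast
        exact le_rfl

end SOS
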