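import Pool.Agent.SOS.UPP
import Pool.Agent.SOS.HID
import Pool.Agent.SOS.ZUP
import Pool.Agent.SOS.ARI
import Pool.Agent.SMG.NCL

/-! EVL: evaluation of the two streams.

Compare the middle part of `SMT.core` (`Pool/Agent/SMT/CORE.lean`, from `hZ`, `hncl`, `hcl`, the
choice of `c`): `SMG.nonclean_card`, `SMT.unit_count`, `κ' = D^N N κ`. Then `lower`, `upper`,
`Zset_card` and `arith` with `H = Nat.card (KK Pos T N D)`. -/

namespace SOS

open SMG

/-- Splitting a set of positions. -/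
private theorem split_card {X : Type} [Fintype X] (S E F : X → Prop)
    (h : ∀ x, S x → E x ∨ F x) :
    Nat.card {x // S x} ≤ Nat.card {x // E x} + Nat.card {x // F x} := by
  classical
  have h1 : (Finset.univ.filter S).card ≤
      (Finset.univ.filter E ∪ Finset.univ.filter F).card := by
    apply Finset.card_le_card
    intro x hx
    rw [Finset.mem_union, Finset.mem_filter, Finset.mem_filter]
    rcases h x (Finset.mem_filter.1 hx).2 with h | h
    · exact Or.inl ⟨Finset.mem_univ _, h⟩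
    · exact Or.inr ⟨Finset.mem_univ _, h⟩
  have h2 := h1.trans (Finset.card_union_le _ _)
  rw [Nat.card_eq_fintype_card, Nat.card_eq_fintype_card, Nat.card_eq_fintype_card,
    Fintype.card_subtype, Fintype.card_subtype, Fintype.card_subtype]
  exact h2

theorem eval {Pos Dir T U Γ : Type} {N D : ℕ} [Fintype Pos] [Fintype Dir] [Fintype T] [Fintype U]
    [Nonempty U] [Fintype Γ] [AddCommGroup Γ] [NeZero D] (C : SMT.TCert T U N)
    (G : Geo Pos Dir (Fin N → ZMod D)) (R : SMT.TRoles N D U C.cell) (hN : 0 < N)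
    (α ε κ : ℝ) (hα0 : 0 < α) (hα1 : α ≤ 1) (hε : ε = α * (C.z + C.h) - C.z) (hε0 : 0 < ε)
    (hκ : 0 < κ) (hgood : ∀ p, (Nat.card {x // ¬ G.good p x} : ℝ) ≤ κ * Nat.card Pos)
    (hκ2 : (2 * (C.h : ℝ) + Nat.card T) * ((D : ℝ) ^ N * N * κ) ≤ ε / (5 * Nat.card U))
    (hPos0 : 0 < Nat.card Pos) (hPos : (C.h : ℝ) ≤ ε / (5 * Nat.card U) * Nat.card Pos)
    (hH : (N : ℝ) ^ 2 * Nat.card (KK Pos T N D) ≤
      Fintype.card Γ * (ε / (5 * Nat.card U)) * Nat.card Pos)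
    (B : ℕ) (hB : 2 * (N : ℝ) ^ 2 * B ≤ Fintype.card Γ * (ε / (5 * Nat.card U)) * Nat.card Pos)
    (P : Fin N → Dir) (hP : Function.Injective P) (X X' : Fin N → Γ → WW Pos Dir T N D Γ)
    (Y : Fin N → WW Pos Dir T N D Γ)
    (hX : ∀ i l : Fin N, i ≤ l → noise (X i) (fun _ => Y i) (P l) ≤ B)
    (hX' : ∀ i : Fin N, noise (X' i) (canon id Y i) (P i) ≤ B) :
    ¬ (α * (nu (stream C G R P X') : ℝ) ≤ (nu (stream C G R P X) : ℝ)) := by
  classical
  intro hs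
  have hD : 0 < D := Nat.pos_of_ne_zero (NeZero.ne D)
  have hNr : (1 : ℝ) ≤ N := by exact_mod_cast hN
  have hz : (0 : ℝ) ≤ C.z := Nat.cast_nonneg _
  have hh : (0 : ℝ) ≤ C.h := Nat.cast_nonneg _
  have hJ : (0 : ℝ) < Fintype.card Γ := by
    have : 0 < Fintype.card Γ := Fintype.card_pos_iff.2 ⟨0⟩
    exact_mod_cast this
  obtain ⟨u, hu_def⟩ : ∃ u : ℝ, u = (Nat.card U : ℝ) := ⟨_, rfl⟩
  have hu1 : 1 ≤ u := by
    have : 0 < Nat.card U := Nat.card_pos
    have : (1 : ℝ) ≤ (Nat.card U : ℝ) := by exact_mod_cast this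
    rw [hu_def]; exact this
  have hu : 0 < u := by linarith
  obtain ⟨Tc, hTc_def⟩ : ∃ Tc : ℝ, Tc = (Nat.card T : ℝ) := ⟨_, rfl⟩
  have hTc : 0 ≤ Tc := by rw [hTc_def]; exact Nat.cast_nonneg _
  obtain ⟨Q, hQdef⟩ : ∃ Q : ℝ, Q = (Nat.card Pos : ℝ) := ⟨_, rfl⟩
  have hQ0 : 0 < Q := by rw [hQdef]; exact_mod_cast hPos0
  have hZ := Zset_card (Γ := Γ) C G R hD P hP hN
  have hncl : ∀ i : Fin N, (Nat.card {x // x ∈ nonclean G P i} : ℝ) ≤
      (D : ℝ) ^ N * N * κ * Q := by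
    intro i
    rw [hQdef]
    exact nonclean_card G hD κ hgood P i
  have hk0 : 0 ≤ (D : ℝ) ^ N * N * κ * Q := by positivity
  have hcl : ∀ (i : Fin N) (v : U), Q * (1 / u - 2 * ((D : ℝ) ^ N * N * κ)) ≤
      (Nat.card {x // x ∉ nonclean G P i ∧ SMT.unitOf C G R P x = v} : ℝ) := by
    intro i v
    have h1 := SMT.unit_count C G R hD P hP hN v
    have h1' : u * (Nat.card {x // x ∉ nonclean G P ⟨0, hN⟩ ∧
        SMT.unitOf C G R P x = v} : ℝ) +
        (Nat.card {x // x ∈ nonclean G P ⟨0, hN⟩} : ℝ) = Q := by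
      rw [hQdef, hu_def]; exact_mod_cast h1
    have h2 : Nat.card {x // x ∉ nonclean G P ⟨0, hN⟩ ∧ SMT.unitOf C G R P x = v} ≤
        Nat.card {x // x ∈ nonclean G P i} +
          Nat.card {x // x ∉ nonclean G P i ∧ SMT.unitOf C G R P x = v} := by
      refine split_card _ _ _ ?_
      intro x hx
      by_cases hxi : x ∈ nonclean G P i
      · exact Or.inl hxi
      · exact Or.inr ⟨hxi, hx.2⟩
    have h2' : (Nat.card {x // x ∉ nonclean G P ⟨0, hN⟩ ∧ SMT.unitOf C G R P x = v} : ℝ) ≤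
        (Nat.card {x // x ∈ nonclean G P i} : ℝ) +
          (Nat.card {x // x ∉ nonclean G P i ∧ SMT.unitOf C G R P x = v} : ℝ) := by
      exact_mod_cast h2
    have h3 := hncl i
    have h4 := hncl ⟨0, hN⟩
    have h5 : Q * (1 / u - 2 * ((D : ℝ) ^ N * N * κ)) =
        (Q - (D : ℝ) ^ N * N * κ * Q) / u + (D : ℝ) ^ N * N * κ * Q / u -
          2 * ((D : ℝ) ^ N * N * κ * Q) := by
      field_simp
      ring
    have h6 : (D : ℝ) ^ N * N * κ * Q / u ≤ (D : ℝ) ^ N * N * κ * Q :=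
      div_le_self hk0 hu1
    have h7 : (Q - (D : ℝ) ^ N * N * κ * Q) / u ≤
        (Nat.card {x // x ∉ nonclean G P ⟨0, hN⟩ ∧ SMT.unitOf C G R P x = v} : ℝ) := by
      rw [div_le_iff₀ hu]
      linarith
    linarith
  obtain ⟨c, hcdef⟩ : ∃ c : ℕ, c = ⌊Q * (1 / u - 2 * ((D : ℝ) ^ N * N * κ))⌋₊ := ⟨_, rfl⟩
  have hc1 : Q * (1 / u - 2 * ((D : ℝ) ^ N * N * κ)) - 1 ≤ c := by
    rw [hcdef]; exact (Nat.sub_one_lt_floor _).le
  have hc2 : ∀ (i : Fin N) (v : U),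
      c ≤ Nat.card {x // x ∉ nonclean G P i ∧ SMT.unitOf C G R P x = v} := by
    intro i v
    have h1 := hcl i v
    by_cases hneg : 0 ≤ Q * (1 / u - 2 * ((D : ℝ) ^ N * N * κ))
    · have h2 : (c : ℝ) ≤ Q * (1 / u - 2 * ((D : ℝ) ^ N * N * κ)) := by
        rw [hcdef]; exact Nat.floor_le hneg
      exact_mod_cast h2.trans h1
    · have h2 : c = 0 := by
        rw [hcdef]; exact Nat.floor_of_nonpos (not_le.1 hneg).le
      rw [h2]; exact Nat.zero_le _
  have hlow := lower C G R P hP X' Y c hc2 B hX'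
  have hupp := upper C G R P X Y B hX
  refine arith (z := C.z) (h := C.h) (u := u) (Tc := Tc) (P := Q)
    (Z := ((Zset (Γ := Γ) C G R P).card : ℝ)) (κ' := (D : ℝ) ^ N * N * κ)
    (c := c) (B := B) (N := N) (α := α) (ε := ε) (J := Fintype.card Γ)
    (H := Nat.card (KK Pos T N D))
    (νY := (nu (stream C G R P X') : ℝ)) (νN := (nu (stream C G R P X) : ℝ))
    hz hh hu hTc hQ0 hα0 hα1 (by positivity) hJ hNr (Nat.cast_nonneg _) hε0 hε
    ?_ ?_ hs ?_ hc1 ?_ ?_ ?_ ?_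
  · exact_mod_cast hlow
  · exact_mod_cast hupp
  · have h1 := hncl ⟨0, hN⟩
    have h2 : Tc * (Nat.card {x // x ∈ nonclean G P ⟨0, hN⟩} : ℝ) ≤
        Tc * ((D : ℝ) ^ N * N * κ * Q) := mul_le_mul_of_nonneg_left h1 hTc
    rw [← hQdef, ← hu_def, ← hTc_def] at hZ
    have h3 := mul_le_mul_of_nonneg_left h2 hJ.le
    linarith
  · rw [hTc_def, hu_def]; exact hκ2
  · rw [hQdef, hu_def]; exact hPos
  · rw [hQdef, hu_def]; exact hH
  · rw [hQdef, hu_def]; exact hB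

end SOS
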