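import Mathlib

/-! EXP: the choice of the constant in the union bound.

`ρ ≥ r P t - 1 ≥ r P t / 2` if `r P t ≥ 2` (`P t ≥ 1 / c₁ ^ 2`, `c₁` small), so
`ρ^2 / (2 t P l) ≥ r^2 P t / (8 l)`; `b log 4 ≤ c₁ (log 4) P t ≤ r^2 P t / (16 l)` and
`log (4 m / δ) ≤ r^2 P t / (16 l)` (`P t ≥ 1 / c₁ ^ 2` large). -/

namespace SOS

theorem expo (r l m δ : ℝ) (hr : 0 < r) (hl : 0 < l) (hm : 0 < m) (hδ : 0 < δ) :
    ∃ c₁ : ℝ, 0 < c₁ ∧ ∀ P t : ℝ, 1 ≤ c₁ * P → 1 ≤ c₁ * t → ∀ b : ℕ, (b : ℝ) ≤ c₁ * P * t →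
      ∀ ρ : ℕ, r * P * t ≤ ρ + 1 →
        m * ((4 : ℝ) ^ b * Real.exp (-((ρ : ℝ) ^ 2 / (2 * (t * (P * l)))))) ≤ δ / 4 := by
  obtain ⟨c₁, hc0, h1, h2, h3, h4⟩ : ∃ c₁ : ℝ, 0 < c₁ ∧ c₁ ≤ 1 ∧ c₁ ≤ r / 2 ∧
      c₁ ≤ r ^ 2 / (32 * l) ∧ c₁ ≤ r ^ 2 / (16 * l) / (4 * m / δ) := by
    refine ⟨min (min 1 (r / 2)) (min (r ^ 2 / (32 * l)) (r ^ 2 / (16 * l) / (4 * m / δ))), ?_,
      ?_, ?_, ?_, ?_⟩
    · refine lt_min (lt_min one_pos (by positivity)) (lt_min (by positivity) (by positivity))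
    · exact (min_le_left _ _).trans (min_le_left _ _)
    · exact (min_le_left _ _).trans (min_le_right _ _)
    · exact (min_le_right _ _).trans (min_le_left _ _)
    · exact (min_le_right _ _).trans (min_le_right _ _)
  refine ⟨c₁, hc0, fun P t hP ht b hb ρ hρ => ?_⟩
  have hP0 : 0 < P := by
    by_contra h
    have := mul_nonpos_of_nonneg_of_nonpos hc0.le (not_lt.mp h)
    linarith
  have ht0 : 0 < t := by
    by_contra h
    have := mul_nonpos_of_nonneg_of_nonpos hc0.le (not_lt.mp h)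
    linarith
  have hP1 : 1 ≤ P := hP.trans (by nlinarith)
  have hS : 1 ≤ c₁ * (P * t) := by nlinarith
  have hS0 : 0 < P * t := mul_pos hP0 ht0
  obtain ⟨S, hSdef⟩ : ∃ S, S = P * t := ⟨_, rfl⟩
  have e1 : r * P * t = r * S := by rw [hSdef]; ring
  have e2 : c₁ * P * t = c₁ * S := by rw [hSdef]; ring
  have e3 : 2 * (t * (P * l)) = 2 * (S * l) := by rw [hSdef]; ring
  rw [e1] at hρ
  rw [e2] at hb
  rw [e3]
  rw [← hSdef] at hS hS0
  have hr2 : 2 ≤ r * S := by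
    have : c₁ * S ≤ r / 2 * S := mul_le_mul_of_nonneg_right h2 hS0.le
    linarith
  have hρ2 : r * S / 2 ≤ ρ := by linarith
  have hρ3 : (r * S / 2) ^ 2 ≤ (ρ : ℝ) ^ 2 := by
    apply pow_le_pow_left₀ (by positivity) hρ2
  have hx : r ^ 2 / (8 * l) * S ≤ (ρ : ℝ) ^ 2 / (2 * (S * l)) := by
    rw [le_div_iff₀ (by positivity)]
    calc r ^ 2 / (8 * l) * S * (2 * (S * l)) = (r * S / 2) ^ 2 := by
          field_simp; ring
      _ ≤ _ := hρ3
  have hb2 : 2 * (b : ℝ) ≤ r ^ 2 / (16 * l) * S := by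
    have : c₁ * S ≤ r ^ 2 / (32 * l) * S := mul_le_mul_of_nonneg_right h3 hS0.le
    have e : r ^ 2 / (16 * l) * S = 2 * (r ^ 2 / (32 * l) * S) := by
      field_simp; ring
    rw [e]; linarith
  have hmd : 4 * m / δ ≤ r ^ 2 / (16 * l) * S := by
    have : c₁ * S ≤ r ^ 2 / (16 * l) / (4 * m / δ) * S := mul_le_mul_of_nonneg_right h4 hS0.le
    have h5 : 1 ≤ r ^ 2 / (16 * l) / (4 * m / δ) * S := hS.trans this
    have hq : 0 < 4 * m / δ := by positivity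
    have h6 : (r ^ 2 / (16 * l) / (4 * m / δ) * S) * (4 * m / δ) = r ^ 2 / (16 * l) * S := by
      field_simp
    rw [← h6]
    nlinarith
  have h4e : (4 : ℝ) ^ b ≤ Real.exp (2 * b) := by
    have : (4 : ℝ) ≤ Real.exp 2 := by
      have h := Real.add_one_le_exp (1 : ℝ)
      have : Real.exp 2 = Real.exp 1 * Real.exp 1 := by rw [← Real.exp_add]; norm_num
      rw [this]; nlinarith
    calc (4 : ℝ) ^ b ≤ (Real.exp 2) ^ b := pow_le_pow_left₀ (by norm_num) this b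
      _ = Real.exp (2 * b) := by rw [← Real.exp_nat_mul]; ring_nf
  have hsum : 2 * (b : ℝ) + 4 * m / δ ≤ (ρ : ℝ) ^ 2 / (2 * (S * l)) := by
    have e : r ^ 2 / (8 * l) * S = r ^ 2 / (16 * l) * S + r ^ 2 / (16 * l) * S := by
      field_simp; ring
    linarith
  calc m * ((4 : ℝ) ^ b * Real.exp (-((ρ : ℝ) ^ 2 / (2 * (S * l)))))
      ≤ m * (Real.exp (2 * b) * Real.exp (-(2 * (b : ℝ) + 4 * m / δ))) := by
        gcongr
    _ = m * Real.exp (-(4 * m / δ)) := by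
        rw [← Real.exp_add]; congr 2; ring
    _ ≤ m * (δ / (4 * m)) := by
        gcongr
        rw [Real.exp_neg]
        have h7 : 4 * m / δ ≤ Real.exp (4 * m / δ) := by
          have := Real.add_one_le_exp (4 * m / δ); linarith
        have h8 : (Real.exp (4 * m / δ))⁻¹ ≤ (4 * m / δ)⁻¹ :=
          inv_anti₀ (by positivity) h7
        calc _ ≤ (4 * m / δ)⁻¹ := h8
          _ = δ / (4 * m) := by rw [inv_div]
    _ = δ / 4 := by field_simp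

end SOS
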