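import Pool.Agent.SOS.CNT
import Pool.Agent.SOS.EVL
import Pool.Agent.SOS.EXP

/-! CORE: a fixed algorithm with one-sided error rarely succeeds on the hard distribution.

Write `u = |U|`, `Tc = |T|`, `L = D^N`, `P = |Pos|`, `t = |Dir|`, `|KK| = P * Tc^2 * L`,
`ε = α (z + h) - z > 0` (so `h > 0`, and `T` is nonempty). Choose
* `J` with `N^2 Tc^2 L ≤ J ε / (5 u)`;
* `κ` with `(2 h + Tc) D^N N κ ≤ ε / (5 u)`;
* `β = J ε / (20 N^2 u)`, `B = ⌈β P⌉₊` (`B ≤ 2 β P` if `β P ≥ 1`), so `2 N^2 B ≤ J (ε / (5 u)) P`;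
* `r = δ β / (4 N^2 J)`, `ρ = ⌊r P t⌋₊`, so `N^2 J ρ / (B t) ≤ δ / 4`;
* `c₀` small: `c₀ ≤` the constant of `expo` (with `l = Tc^2 L`, `m = N J`), `N^2 c₀ ≤ δ / 4`,
  `h c₀ ≤ ε / (5 u)`, `c₀ ≤ β`.
`count` with `c = id`, `c' = 0` (first part) and `c = 0`, `c' = id` (second part); its last
hypothesis is `eval`: in the first part `X = colX ..`, `X' = canon id Y`,
`α ν(X') ≤ output(X') = output(X) ≤ ν(X)`; in the second part `X = canon 0 Y`, `X' = colX ..`. -/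

namespace SOS

open SMG

private theorem noise_self {Pos Dir T Γ : Type} {N D : ℕ} (X : Γ → WW Pos Dir T N D Γ) (p : Dir) :
    noise X X p = 0 := by
  unfold noise
  have : IsEmpty {q : Γ × KK Pos T N D // X q.1 (p, q.2) ≠ X q.1 (p, q.2)} := ⟨fun q => q.2 rfl⟩
  exact Nat.card_of_isEmpty

private theorem canon_zero {Pos Dir T Γ : Type} {N D : ℕ} [AddCommGroup Γ]
    (Y : Fin N → WW Pos Dir T N D Γ) (i : Fin N) :
    canon (fun _ : Γ => (0 : Γ)) Y i = fun _ => Y i := by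
  funext τ s
  simp [canon]

/-- the choice of the constants -/
private theorem consts (n u h Tc L : ℕ) (ε δ : ℝ) (hn : 0 < n) (hu : 0 < u) (hh : 0 < h)
    (hTc : 0 < Tc) (hL : 0 < L) (hε : 0 < ε) (hδ : 0 < δ) :
    ∃ (J : ℕ) (κ β r c₀ : ℝ), 0 < J ∧ 0 < κ ∧ 0 < c₀ ∧ 0 < β ∧ 0 < r ∧
      ((n : ℝ) ^ 2 * (Tc * (L * Tc)) ≤ J * (ε / (5 * u))) ∧
      ((2 * (h : ℝ) + Tc) * ((L : ℝ) * n * κ) ≤ ε / (5 * u)) ∧
      (4 * (n : ℝ) ^ 2 * β = J * (ε / (5 * u))) ∧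
      ((n : ℝ) ^ 2 * J * r = δ / 4 * β) ∧
      ((n : ℝ) ^ 2 * c₀ ≤ δ / 4) ∧ ((h : ℝ) * c₀ ≤ ε / (5 * u)) ∧ c₀ ≤ β ∧
      ∀ P t : ℝ, 1 ≤ c₀ * P → 1 ≤ c₀ * t → ∀ b : ℕ, (b : ℝ) ≤ c₀ * P * t →
      ∀ ρ : ℕ, r * P * t ≤ ρ + 1 →
        (n * J : ℝ) * ((4 : ℝ) ^ b * Real.exp (-((ρ : ℝ) ^ 2 / (2 * (t * (P * (Tc * (L * Tc)))))))) ≤
          δ / 4 := by
  have hn' : (0 : ℝ) < n := by exact_mod_cast hn
  have hu' : (0 : ℝ) < u := by exact_mod_cast hu
  have hh' : (0 : ℝ) < h := by exact_mod_cast hh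
  have hT' : (0 : ℝ) < Tc := by exact_mod_cast hTc
  have hL' : (0 : ℝ) < L := by exact_mod_cast hL
  set e : ℝ := ε / (5 * u) with he
  have he0 : 0 < e := by positivity
  obtain ⟨J, hJ⟩ := exists_nat_gt ((n : ℝ) ^ 2 * (Tc * (L * Tc)) / e)
  have hJ0 : (0 : ℝ) < J := lt_of_le_of_lt (by positivity) hJ
  have hJn : 0 < J := by exact_mod_cast hJ0
  rw [div_lt_iff₀ he0] at hJ
  set β : ℝ := J * e / (4 * (n : ℝ) ^ 2) with hβ
  have hβ0 : 0 < β := by positivity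
  set r : ℝ := δ / 4 * β / ((n : ℝ) ^ 2 * J) with hr
  have hr0 : 0 < r := by positivity
  obtain ⟨c₁, hc₁, hexp⟩ := expo r (Tc * (L * Tc)) (n * J) δ hr0 (by positivity) (by positivity) hδ
  refine ⟨J, e / ((2 * (h : ℝ) + Tc) * ((L : ℝ) * n)), β, r,
    min (min c₁ (δ / 4 / (n : ℝ) ^ 2)) (min (e / h) β), hJn, by positivity, by positivity, hβ0, hr0,
    hJ.le, ?_, ?_, ?_, ?_, ?_, ?_, ?_⟩
  · apply le_of_eq; field_simp
  · rw [hβ]; field_simp
  · rw [hr]; field_simp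
  · calc (n : ℝ) ^ 2 * min (min c₁ (δ / 4 / (n : ℝ) ^ 2)) (min (e / h) β)
        ≤ (n : ℝ) ^ 2 * (δ / 4 / (n : ℝ) ^ 2) := by
          gcongr
          exact (min_le_left _ _).trans (min_le_right _ _)
      _ = δ / 4 := by field_simp
  · calc (h : ℝ) * min (min c₁ (δ / 4 / (n : ℝ) ^ 2)) (min (e / h) β)
        ≤ (h : ℝ) * (e / h) := by
          gcongr
          exact (min_le_right _ _).trans (min_le_left _ _)
      _ = e := by field_simp
  · exact (min_le_right _ _).trans (min_le_right _ _)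
  · intro P t hP ht b hb ρ hρ
    have hle : min (min c₁ (δ / 4 / (n : ℝ) ^ 2)) (min (e / h) β) ≤ c₁ :=
      (min_le_left _ _).trans (min_le_left _ _)
    have hc0 : 0 < min (min c₁ (δ / 4 / (n : ℝ) ^ 2)) (min (e / h) β) := by positivity
    have hP0 : 0 < P := by
      by_contra hc
      push Not at hc
      nlinarith
    have ht0 : 0 < t := by
      by_contra hc
      push Not at hc
      nlinarith
    refine hexp P t (hP.trans ?_) (ht.trans ?_) b (hb.trans ?_) ρ hρ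
    · gcongr
    · gcongr
    · gcongr

theorem core {T U : Type} [Fintype T] [Fintype U] [Nonempty U] {N D : ℕ} [NeZero D] (hN : 0 < N)
    (C : SMT.TCert T U N) (R : SMT.TRoles N D U C.cell) (α δ : ℝ)
    (hα : (C.z : ℝ) < α * (C.z + C.h)) (hα1 : α ≤ 1) (hδ : 0 < δ) :
    ∃ (J : ℕ) (_ : NeZero J) (κ : ℝ), 0 < κ ∧ ∃ c₀ : ℝ, 0 < c₀ ∧
      ∀ (Pos Dir : Type) [Fintype Pos] [Fintype Dir]
      (G : Geo Pos Dir (Fin N → ZMod D)) (b : ℕ),
      (∀ p, (Nat.card {x // ¬ G.good p x} : ℝ) ≤ κ * Nat.card Pos) →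
      (b : ℝ) ≤ c₀ * Nat.card Pos * Nat.card Dir →
      1 / c₀ ≤ (Nat.card Pos : ℝ) → 1 / c₀ ≤ (Nat.card Dir : ℝ) →
      ∀ A : NAlg (VV Pos T (ZMod J)) b,
        ((∀ (P : Fin N → Dir) (X : Fin N → ZMod J → WW Pos Dir T N D (ZMod J)),
            A.output (stream C G R P X) ≤ nu (stream C G R P X)) →
          (Nat.card {θ : Par Pos Dir T N D (ZMod J) //
            α * (nu (stream C G R θ.1 (canon id θ.2)) : ℝ) ≤
              A.output (stream C G R θ.1 (canon id θ.2))} : ℝ) ≤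
            δ * Nat.card (Par Pos Dir T N D (ZMod J))) ∧
        ((∀ (P : Fin N → Dir) (X : Fin N → ZMod J → WW Pos Dir T N D (ZMod J)),
            α * (nu (stream C G R P X) : ℝ) ≤ A.output (stream C G R P X)) →
          (Nat.card {θ : Par Pos Dir T N D (ZMod J) //
            A.output (stream C G R θ.1 (canon (fun _ => 0) θ.2)) ≤
              (nu (stream C G R θ.1 (canon (fun _ => 0) θ.2)) : ℝ)} : ℝ) ≤
            δ * Nat.card (Par Pos Dir T N D (ZMod J))) := by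
  classical
  have hT : Nonempty T := by
    by_contra hc
    rw [not_nonempty_iff] at hc
    have hh : C.h = 0 := by
      unfold SMT.TCert.h
      rw [Finset.card_eq_zero]
      ext m
      exact hc.elim m.1.1
    rw [hh] at hα
    have hz : (0 : ℝ) ≤ C.z := Nat.cast_nonneg _
    push_cast at hα
    nlinarith
  have hz : (0 : ℝ) ≤ C.z := Nat.cast_nonneg _
  have hh0 : (0 : ℝ) ≤ C.h := Nat.cast_nonneg _
  have hhpos : 0 < C.h := by
    rcases Nat.eq_zero_or_pos C.h with hh | hh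
    · exfalso
      rw [hh] at hα
      push_cast at hα
      nlinarith
    · exact hh
  have hhpos' : (0 : ℝ) < C.h := by exact_mod_cast hhpos
  have hα0 : 0 < α := by
    by_contra hc
    push Not at hc
    nlinarith
  have hε : 0 < α * (C.z + C.h) - C.z := by linarith
  have hD : 0 < D := Nat.pos_of_ne_zero (NeZero.ne D)
  obtain ⟨J, κ, β, r, c₀, hJ, hκ, hc₀, hβ, hr, h1, h2, h3, h4, h5, h6, h7, h8⟩ :=
    consts N (Nat.card U) C.h (Nat.card T) (D ^ N) (α * (C.z + C.h) - C.z) δ hN Nat.card_pos hhpos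
      Nat.card_pos (pow_pos hD N) hε hδ
  haveI hJz : NeZero J := ⟨hJ.ne'⟩
  refine ⟨J, hJz, κ, hκ, c₀, hc₀, ?_⟩
  intro Pos Dir _ _ G b hgood hb hPc hDc A
  have hPr : (0 : ℝ) < Nat.card Pos := lt_of_lt_of_le (by positivity) hPc
  have hDr : (0 : ℝ) < Nat.card Dir := lt_of_lt_of_le (by positivity) hDc
  have hPn : 0 < Nat.card Pos := by exact_mod_cast hPr
  have hDn : 0 < Nat.card Dir := by exact_mod_cast hDr
  have : Nonempty Pos := (Nat.card_pos_iff.mp hPn).1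
  have : Nonempty Dir := (Nat.card_pos_iff.mp hDn).1
  have hP1 : 1 ≤ c₀ * Nat.card Pos := by
    rw [div_le_iff₀ hc₀] at hPc
    linarith
  have hD1 : 1 ≤ c₀ * Nat.card Dir := by
    rw [div_le_iff₀ hc₀] at hDc
    linarith
  have hJr : (0 : ℝ) < J := by exact_mod_cast hJ
  have hNr : (0 : ℝ) < N := by exact_mod_cast hN
  have hcG : Fintype.card (ZMod J) = J := ZMod.card J
  have hKK : (Nat.card (KK Pos T N D) : ℝ) =
      Nat.card Pos * (Nat.card T * (((D ^ N : ℕ) : ℝ) * Nat.card T)) := by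
    have : Nat.card (KK Pos T N D) = Nat.card Pos * (Nat.card T * (D ^ N * Nat.card T)) := by
      rw [Nat.card_prod, Nat.card_prod, Nat.card_prod, Nat.card_fun, Nat.card_zmod, Nat.card_fin]
    rw [this]
    push_cast
    ring
  set ρ : ℕ := ⌊r * Nat.card Pos * Nat.card Dir⌋₊ with hρ
  set B : ℕ := ⌈β * Nat.card Pos⌉₊ with hB
  have hβP : 1 ≤ β * Nat.card Pos := hP1.trans (by gcongr)
  have hB0 : 0 < B := Nat.ceil_pos.mpr (by positivity)
  have hB1 : β * Nat.card Pos ≤ B := Nat.le_ceil _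
  have hB2 : (B : ℝ) ≤ 2 * (β * Nat.card Pos) := by
    have := (Nat.ceil_lt_add_one (a := β * Nat.card Pos) (by positivity)).le
    linarith
  have hBr : (0 : ℝ) < B := by exact_mod_cast hB0
  have hρ1 : (ρ : ℝ) ≤ r * Nat.card Pos * Nat.card Dir := Nat.floor_le (by positivity)
  have hρ2 : r * Nat.card Pos * Nat.card Dir ≤ ρ + 1 := (Nat.lt_floor_add_one _).le
  have e1 : (N : ℝ) ^ 2 / Nat.card Dir ≤ δ / 4 := by
    rw [div_le_iff₀ hDr]
    calc (N : ℝ) ^ 2 = (N : ℝ) ^ 2 * 1 := by ring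
      _ ≤ (N : ℝ) ^ 2 * (c₀ * Nat.card Dir) := by gcongr
      _ = ((N : ℝ) ^ 2 * c₀) * Nat.card Dir := by ring
      _ ≤ _ := by gcongr
  have e2 := h8 (Nat.card Pos) (Nat.card Dir) hP1 hD1 b hb ρ hρ2
  have e3 : (N : ℝ) ^ 2 * ((J : ℝ) * ρ / (B * Nat.card Dir)) ≤ δ / 4 := by
    have : (N : ℝ) ^ 2 * ((J : ℝ) * ρ / (B * Nat.card Dir)) =
        ((N : ℝ) ^ 2 * J * ρ) / (B * Nat.card Dir) := by ring
    rw [this, div_le_iff₀ (by positivity)]
    calc (N : ℝ) ^ 2 * J * ρ ≤ (N : ℝ) ^ 2 * J * (r * Nat.card Pos * Nat.card Dir) := by gcongr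
      _ = ((N : ℝ) ^ 2 * J * r) * (Nat.card Pos * Nat.card Dir) := by ring
      _ = (δ / 4) * ((β * Nat.card Pos) * Nat.card Dir) := by rw [h4]; ring
      _ ≤ (δ / 4) * (B * Nat.card Dir) := by gcongr
  have hsum : ((N : ℝ) ^ 2 / Nat.card Dir +
        (N * Fintype.card (ZMod J) : ℝ) * ((4 : ℝ) ^ b * Real.exp (-((ρ : ℝ) ^ 2 /
          (2 * (Nat.card Dir * Nat.card (KK Pos T N D)))))) +
        (N : ℝ) ^ 2 * ((Fintype.card (ZMod J) : ℝ) * ρ / (B * Nat.card Dir))) *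
      Nat.card (Par Pos Dir T N D (ZMod J)) ≤ δ * Nat.card (Par Pos Dir T N D (ZMod J)) := by
    rw [hcG, hKK]
    have : ((N : ℝ) ^ 2 / Nat.card Dir +
        (N * J : ℝ) * ((4 : ℝ) ^ b * Real.exp (-((ρ : ℝ) ^ 2 /
          (2 * (Nat.card Dir * (Nat.card Pos * (Nat.card T * (((D ^ N : ℕ) : ℝ) *
            Nat.card T)))))))) +
        (N : ℝ) ^ 2 * ((J : ℝ) * ρ / (B * Nat.card Dir))) ≤ δ := by
      linarith
    gcongr
  have hPosh : (C.h : ℝ) ≤ (α * (C.z + C.h) - C.z) / (5 * Nat.card U) * Nat.card Pos := by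
    calc (C.h : ℝ) = C.h * 1 := by ring
      _ ≤ C.h * (c₀ * Nat.card Pos) := by gcongr
      _ = (C.h * c₀) * Nat.card Pos := by ring
      _ ≤ _ := by gcongr
  have hH : (N : ℝ) ^ 2 * Nat.card (KK Pos T N D) ≤
      Fintype.card (ZMod J) * ((α * (C.z + C.h) - C.z) / (5 * Nat.card U)) * Nat.card Pos := by
    rw [hcG, hKK]
    calc (N : ℝ) ^ 2 * (Nat.card Pos * (Nat.card T * (((D ^ N : ℕ) : ℝ) * Nat.card T)))
        = ((N : ℝ) ^ 2 * (Nat.card T * (((D ^ N : ℕ) : ℝ) * Nat.card T))) * Nat.card Pos := by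
          ring
      _ ≤ _ := by gcongr
  have hBB : 2 * (N : ℝ) ^ 2 * B ≤
      Fintype.card (ZMod J) * ((α * (C.z + C.h) - C.z) / (5 * Nat.card U)) * Nat.card Pos := by
    rw [hcG]
    calc 2 * (N : ℝ) ^ 2 * B ≤ 2 * (N : ℝ) ^ 2 * (2 * (β * Nat.card Pos)) := by gcongr
      _ = (4 * (N : ℝ) ^ 2 * β) * Nat.card Pos := by ring
      _ = _ := by rw [h3]
  have hκ2 : (2 * (C.h : ℝ) + Nat.card T) * ((D : ℝ) ^ N * N * κ) ≤
      (α * (C.z + C.h) - C.z) / (5 * Nat.card U) := by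
    have := h2
    push_cast at this
    exact this
  have ev := fun (P : Fin N → Dir) (hP : Function.Injective P)
    (X X' : Fin N → ZMod J → WW Pos Dir T N D (ZMod J)) (Y : Fin N → WW Pos Dir T N D (ZMod J)) =>
    eval C G R hN α (α * (C.z + C.h) - C.z) κ hα0 hα1 rfl hε hκ hgood hκ2 hPn hPosh hH B hBB P hP
      X X' Y
  refine ⟨fun hA => ?_, fun hA => ?_⟩
  · refine (count C G R A id (fun _ => 0) ρ B hB0 _ ?_).trans hsum
    intro θ hS hinj hout hno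
    refine ev θ.1 hinj (colX C G R A id (fun _ => 0) ρ θ.1 θ.2) (canon id θ.2) θ.2 ?_ ?_ ?_
    · intro i l hil
      have := (hno i l hil).le
      rw [canon_zero] at this
      exact this
    · intro i
      rw [noise_self]
      exact Nat.zero_le _
    · calc α * (nu (stream C G R θ.1 (canon id θ.2)) : ℝ)
          ≤ A.output (stream C G R θ.1 (canon id θ.2)) := hS
        _ = A.output (stream C G R θ.1 (colX C G R A id (fun _ => 0) ρ θ.1 θ.2)) := hout.symm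
        _ ≤ _ := hA _ _
  · refine (count C G R A (fun _ => 0) id ρ B hB0 _ ?_).trans hsum
    intro θ hS hinj hout hno
    refine ev θ.1 hinj (canon (fun _ => 0) θ.2) (colX C G R A (fun _ => 0) id ρ θ.1 θ.2) θ.2 ?_ ?_ ?_
    · intro i l _
      rw [canon_zero, noise_self]
      exact Nat.zero_le _
    · intro i
      exact (hno i i le_rfl).le
    · calc α * (nu (stream C G R θ.1 (colX C G R A (fun _ => 0) id ρ θ.1 θ.2)) : ℝ)
          ≤ A.output (stream C G R θ.1 (colX C G R A (fun _ => 0) id ρ θ.1 θ.2)) := hA _ _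
        _ = A.output (stream C G R θ.1 (canon (fun _ => 0) θ.2)) := hout
        _ ≤ _ := hS

end SOS
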