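import Pool.Agent.SOS.NDP

/-! COV: the closed vertices cover all edges which are not in a special direction.
(Compare `SMT.cover`, `Pool/Agent/SMT/COV.lean`: almost the same proof.) -/

namespace SOS

open SMG

theorem cover {Pos Dir T U Γ : Type} {N D : ℕ} [Fintype Pos] [Fintype Dir] [Fintype T] [Fintype Γ]
    (C : SMT.TCert T U N)
    (G : Geo Pos Dir (Fin N → ZMod D)) (R : SMT.TRoles N D U C.cell)
    (P : Fin N → Dir) (X : Fin N → Γ → WW Pos Dir T N D Γ) (e : Sym2 (VV Pos T Γ))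
    (he : e ∈ stream C G R P X) :
    (∃ v ∈ Zset (Γ := Γ) C G R P, Sum.inl v ∈ e) ∨
      ∃ (i l : Fin N) (j : JJ Pos T) (τ : Γ), i ≤ l ∧ SMT.slotOK C G R P (i : ℕ) (P l) j ∧
        e = edg j.1.1 j.1.2 τ j.2.1 j.2.2 (X i τ (P l, key G (P l) j)) := by
  classical
  rcases (mem_stream C G R P X e).1 he with ⟨i, p, j, τ, hok, rfl⟩ | ⟨v, hv, rfl⟩
  swap
  · left
    exact ⟨v, hv, Sym2.mem_mk_left _ _⟩
  obtain ⟨hP, hjoin, hcell, hne, hblk⟩ := id hok
  by_cases hp : ∃ l, p = P l
  · obtain ⟨l, rfl⟩ := hp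
    right
    refine ⟨i, l, j, τ, ?_, hok, rfl⟩
    by_contra hlt
    exact hP l (by simpa using hlt) rfl
  · left
    by_cases hg : ∃ l, ¬ G.good (P l) j.1.1
    · refine ⟨(j.1.1, j.1.2, τ), ?_, Sym2.mem_mk_left _ _⟩
      simp only [Zset, Finset.mem_filter, Finset.mem_univ, true_and]
      exact Or.inl hg
    · push Not at hg hp
      have hd : SMG.delta G P j.2.1 = SMG.delta G P j.1.1 := by
        funext l
        simp only [SMG.delta]
        refine Finset.sum_congr rfl (fun k _ => ?_)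
        rw [G.good_spec (P k) p j.1.1 j.2.1 (hp k) hblk.symm (hg k)]
      have hu : SMT.unitOf C G R P j.2.1 = SMT.unitOf C G R P j.1.1 := by
        simp only [SMT.unitOf, hd]
      have h3 := C.indep (i : ℕ) (SMT.unitOf C G R P j.1.1) j.1.2 j.2.2 hjoin
      by_cases ho : C.opn (SMT.unitOf C G R P j.1.1) j.1.2
      · refine ⟨(j.2.1, j.2.2, X i τ (p, key G p j)), ?_, Sym2.mem_mk_right _ _⟩
        simp only [Zset, Finset.mem_filter, Finset.mem_univ, true_and]
        right
        rw [hu]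
        exact fun h4 => h3 ⟨ho, h4⟩
      · refine ⟨(j.1.1, j.1.2, τ), ?_, Sym2.mem_mk_left _ _⟩
        simp only [Zset, Finset.mem_filter, Finset.mem_univ, true_and]
        right
        exact ho

end SOS
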