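import Pool.Agent.SMG.MMX

/-! MMX: averaging over the inputs against a randomised algorithm, with an almost sure event. Apply
`SMG.minimax` to the sets `S θ ∩ E` (for `ω ∉ E` the count is 0), `P (S θ ∩ E) = P (S θ)`. -/

namespace SOS

open MeasureTheory

theorem minimax_ae {Ω Θ : Type} [MeasurableSpace Ω] [Fintype Θ] [Nonempty Θ] (P : Measure Ω)
    [IsProbabilityMeasure P] (S : Θ → Set Ω) (hS : ∀ θ, MeasurableSet (S θ)) (E : Set Ω)
    (hE : MeasurableSet E) (hE1 : ∀ᵐ ω ∂P, ω ∈ E) (δ : ℝ) (hδ : 0 ≤ δ)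
    (h : ∀ ω ∈ E, (Nat.card {θ // ω ∈ S θ} : ℝ) ≤ δ * Nat.card Θ) :
    ∃ θ, P (S θ) ≤ ENNReal.ofReal δ := by
  classical
  obtain ⟨θ, hθ⟩ := SMG.minimax P (fun θ => S θ ∩ E) (fun θ => (hS θ).inter hE) δ hδ (by
    intro ω
    by_cases hω : ω ∈ E
    · have h1 : Nat.card {θ // ω ∈ S θ ∩ E} = Nat.card {θ // ω ∈ S θ} :=
        Nat.card_congr (Equiv.subtypeEquivRight (fun θ => ⟨fun h => h.1, fun h => ⟨h, hω⟩⟩))
      rw [h1]
      exact h ω hω
    · have h1 : IsEmpty {θ // ω ∈ S θ ∩ E} := ⟨fun s => hω s.2.2⟩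
      rw [Nat.card_of_isEmpty]
      simp only [Nat.cast_zero]
      positivity)
  refine ⟨θ, ?_⟩
  have h1 : P (S θ ∩ E) = P (S θ) := by
    refine measure_congr ?_
    filter_upwards [hE1] with ω hω
    exact propext ⟨fun h => h.1, fun h => ⟨h, hω⟩⟩
  rw [← h1]
  exact hθ

end SOS
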