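import Pool.Agent.SOS.Defs

/-! LSL: the list of the layers. `LL` has no duplicates, contains all layers and is sorted by the
phase; `before_le`: `LL = takeWhile ++ dropWhile`, the head of `dropWhile` is `q` (as `q ∈ LL`), and
`LL.Pairwise (fun q q' => q.1 ≤ q'.1)`. -/

namespace SOS

theorem mem_LL {N : ℕ} {Γ : Type} [Fintype Γ] (q : Fin N × Γ) : q ∈ LL N Γ := by
  unfold LL
  rw [List.mem_flatMap]
  refine ⟨q.1, List.mem_finRange _, ?_⟩
  rw [List.mem_map]
  exact ⟨q.2, Finset.mem_toList.2 (Finset.mem_univ _), rfl⟩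

theorem nodup_LL (N : ℕ) (Γ : Type) [Fintype Γ] : (LL N Γ).Nodup := by
  unfold LL
  rw [List.nodup_flatMap]
  refine ⟨fun i _ => ?_, ?_⟩
  · refine (Finset.nodup_toList _).map ?_
    intro a b h
    exact (Prod.mk.inj h).2
  · refine (List.nodup_finRange N).imp ?_
    intro i j hij
    rw [Function.onFun, List.disjoint_left]
    intro x hx hx'
    obtain ⟨a, _, ha⟩ := List.mem_map.1 hx
    obtain ⟨b, _, hb⟩ := List.mem_map.1 hx'
    apply hij
    rw [← hb] at ha
    exact (Prod.mk.inj ha).1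

theorem pairwise_LL (N : ℕ) (Γ : Type) [Fintype Γ] :
    (LL N Γ).Pairwise (fun q q' => q.1 ≤ q'.1) := by
  unfold LL
  rw [List.pairwise_flatMap]
  refine ⟨fun i _ => ?_, ?_⟩
  · rw [List.pairwise_map]
    exact List.pairwise_of_forall (fun _ _ => le_rfl)
  · refine (List.pairwise_lt_finRange N).imp ?_
    intro i j hij x hx y hy
    obtain ⟨a, _, rfl⟩ := List.mem_map.1 hx
    obtain ⟨b, _, rfl⟩ := List.mem_map.1 hy
    exact hij.le

open Classical in
/-- The layers before `q` belong to the phases up to that of `q`. -/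
theorem before_le {N : ℕ} {Γ : Type} [Fintype Γ] (q q' : Fin N × Γ)
    (h : q' ∈ (LL N Γ).takeWhile (fun q' => q' ≠ q)) : q'.1 ≤ q.1 := by
  have h1 := List.takeWhile_append_dropWhile (p := fun q' : Fin N × Γ => decide (q' ≠ q))
    (l := LL N Γ)
  have h2 := pairwise_LL N Γ
  rw [← h1, List.pairwise_append] at h2
  have hq : q ∈ (LL N Γ).dropWhile (fun q' => q' ≠ q) := by
    have h3 : q ∈ (LL N Γ).takeWhile (fun q' => q' ≠ q) ++
        (LL N Γ).dropWhile (fun q' => q' ≠ q) := by
      rw [h1]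
      exact mem_LL q
    rcases List.mem_append.1 h3 with h4 | h4
    · have h5 := List.mem_takeWhile_imp h4
      simp at h5
    · exact h4
  exact h2.2.2 q' h q hq

end SOS
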