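import Pool.Agent.SMT.NDP
import Pool.Agent.SOS.LSL

/-! NDP: the hard stream is a stream of pairwise different edges of a bipartite graph.
(Compare `Pool/Agent/SMT/NDP.lean`; almost the same proof. The layers are different because of
`C.join_uniq` for different phases and because of the copy of the left end for the same phase;
inside a layer the slot determines the direction by `G.dir_uniq`.) -/

namespace SOS

open SMG

variable {Pos Dir T U Γ : Type} {N D : ℕ}

/-- The edge determines the slot (left end first) and the copies. -/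
theorem edg_inj (left : T → Bool) {x x' y y' : Pos} {a b c d : T} {τ τ' ρ ρ' : Γ}
    (ha : left a = true) (hb : left b = false) (hc : left c = true) (hd : left d = false)
    (h : edg x a τ x' b τ' = edg y c ρ y' d ρ') :
    x = y ∧ a = c ∧ τ = ρ ∧ x' = y' ∧ b = d ∧ τ' = ρ' := by
  unfold edg at h
  rw [Sym2.eq_iff] at h
  rcases h with ⟨h1, h2⟩ | ⟨h1, h2⟩
  · simp only [Sum.inl.injEq, Prod.mk.injEq] at h1 h2
    exact ⟨h1.1, h1.2.1, h1.2.2, h2.1, h2.2.1, h2.2.2⟩
  · simp only [Sum.inl.injEq, Prod.mk.injEq] at h1 h2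
    rw [h1.2.1, hd] at ha
    exact absurd ha (by simp)

private theorem mem_layerList [Fintype Pos] [Fintype Dir] [Fintype T] (C : SMT.TCert T U N)
    (G : Geo Pos Dir (Fin N → ZMod D)) (R : SMT.TRoles N D U C.cell)
    (P : Fin N → Dir) (i : ℕ) (τ : Γ) (W : WW Pos Dir T N D Γ) (e : Sym2 (VV Pos T Γ)) :
    e ∈ layerList C G R P i τ W ↔
      ∃ (p : Dir) (j : JJ Pos T), SMT.slotOK C G R P i p j ∧
        e = edg j.1.1 j.1.2 τ j.2.1 j.2.2 (W (p, key G p j)) := by
  classical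
  unfold layerList
  rw [List.mem_map]
  constructor
  · rintro ⟨⟨p, j⟩, hs, he⟩
    exact ⟨p, j, (Finset.mem_filter.1 (Finset.mem_toList.1 hs)).2, he.symm⟩
  · rintro ⟨p, j, hs, he⟩
    exact ⟨(p, j), Finset.mem_toList.2 (Finset.mem_filter.2 ⟨Finset.mem_univ _, hs⟩), he.symm⟩

private theorem mem_pendList [Fintype Pos] [Fintype T] [Fintype Γ] (C : SMT.TCert T U N)
    (G : Geo Pos Dir (Fin N → ZMod D)) (R : SMT.TRoles N D U C.cell)
    (P : Fin N → Dir) (e : Sym2 (VV Pos T Γ)) :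
    e ∈ pendList (Γ := Γ) C G R P ↔
      ∃ v ∈ Zset (Γ := Γ) C G R P, e = s(Sum.inl v, Sum.inr v) := by
  unfold pendList
  rw [List.mem_map]
  constructor
  · rintro ⟨v, hv, he⟩
    exact ⟨v, Finset.mem_toList.1 hv, he.symm⟩
  · rintro ⟨v, hv, he⟩
    exact ⟨v, Finset.mem_toList.2 hv, he.symm⟩

/-- Membership in the hard stream. -/
theorem mem_stream [Fintype Pos] [Fintype Dir] [Fintype T] [Fintype Γ] (C : SMT.TCert T U N)
    (G : Geo Pos Dir (Fin N → ZMod D)) (R : SMT.TRoles N D U C.cell)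
    (P : Fin N → Dir) (X : Fin N → Γ → WW Pos Dir T N D Γ) (e : Sym2 (VV Pos T Γ)) :
    e ∈ stream C G R P X ↔
      (∃ (i : Fin N) (p : Dir) (j : JJ Pos T) (τ : Γ), SMT.slotOK C G R P (i : ℕ) p j ∧
        e = edg j.1.1 j.1.2 τ j.2.1 j.2.2 (X i τ (p, key G p j))) ∨
      ∃ v ∈ Zset (Γ := Γ) C G R P, e = s(Sum.inl v, Sum.inr v) := by
  unfold stream
  rw [List.mem_append, List.mem_flatMap, mem_pendList]
  refine or_congr ?_ Iff.rfl
  constructor
  · rintro ⟨q, -, hq⟩
    obtain ⟨p, j, h1, h2⟩ := (mem_layerList C G R P _ _ _ _).1 hq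
    exact ⟨q.1, p, j, q.2, h1, h2⟩
  · rintro ⟨i, p, j, τ, h1, h2⟩
    exact ⟨(i, τ), mem_LL _, (mem_layerList C G R P _ _ _ _).2 ⟨p, j, h1, h2⟩⟩

private theorem nodup_layerList [Fintype Pos] [Fintype Dir] [Fintype T] (C : SMT.TCert T U N)
    (G : Geo Pos Dir (Fin N → ZMod D)) (R : SMT.TRoles N D U C.cell)
    (P : Fin N → Dir) (i : ℕ) (τ : Γ) (W : WW Pos Dir T N D Γ) :
    (layerList C G R P i τ W).Nodup := by
  classical
  unfold layerList
  refine List.Nodup.map_on ?_ (Finset.nodup_toList _)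
  rintro ⟨p, j⟩ hs ⟨p', j'⟩ hs' h
  have h1 : SMT.slotOK C G R P i p j := (Finset.mem_filter.1 (Finset.mem_toList.1 hs)).2
  have h2 : SMT.slotOK C G R P i p' j' := (Finset.mem_filter.1 (Finset.mem_toList.1 hs')).2
  obtain ⟨ha, hb⟩ := C.join_side _ _ _ _ h1.2.1
  obtain ⟨ha', hb'⟩ := C.join_side _ _ _ _ h2.2.1
  obtain ⟨e1, e2, -, e3, e4, -⟩ := edg_inj C.left ha hb ha' hb' h
  obtain ⟨-, -, -, hne1, hblk⟩ := h1
  obtain ⟨-, -, -, hne1', hblk'⟩ := h2
  have ej : j = j' := Prod.ext (Prod.ext e1 e2) (Prod.ext e3 e4)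
  subst ej
  exact Prod.ext (G.dir_uniq p p' _ _ hne1 hblk hblk') rfl

theorem stream_isStream [Fintype Pos] [Fintype Dir] [Fintype T] [Fintype Γ] (C : SMT.TCert T U N)
    (G : Geo Pos Dir (Fin N → ZMod D)) (R : SMT.TRoles N D U C.cell)
    (P : Fin N → Dir) (X : Fin N → Γ → WW Pos Dir T N D Γ) :
    IsStream (stream C G R P X) := by
  classical
  constructor
  · unfold stream
    rw [List.nodup_append']
    refine ⟨?_, ?_, ?_⟩
    · rw [List.nodup_flatMap]
      refine ⟨fun q _ => nodup_layerList C G R P _ _ _, ?_⟩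
      refine List.Nodup.pairwise_of_forall_ne (nodup_LL N Γ) ?_
      intro q _ q' _ hne
      change List.Disjoint _ _
      rw [List.disjoint_left]
      intro e he he'
      obtain ⟨p, j, h1, h2⟩ := (mem_layerList C G R P _ _ _ _).1 he
      obtain ⟨p', j', h1', h2'⟩ := (mem_layerList C G R P _ _ _ _).1 he'
      obtain ⟨ha, hb⟩ := C.join_side _ _ _ _ h1.2.1
      obtain ⟨ha', hb'⟩ := C.join_side _ _ _ _ h1'.2.1
      obtain ⟨-, hj, -⟩ := h1
      obtain ⟨-, hj', -⟩ := h1'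
      obtain ⟨e1, e2, e3, -, e4, -⟩ := edg_inj C.left ha hb ha' hb' (h2.symm.trans h2')
      rw [← e1, ← e2, ← e4] at hj'
      exact hne (Prod.ext (Fin.ext (C.join_uniq _ _ _ _ _ hj hj')) e3)
    · unfold pendList
      refine List.Nodup.map ?_ (Finset.nodup_toList _)
      intro v v' h
      have h' : s((Sum.inl v : VV Pos T Γ), Sum.inr v) = s(Sum.inl v', Sum.inr v') := h
      rw [Sym2.eq_iff] at h'
      rcases h' with ⟨h1, -⟩ | ⟨h1, -⟩
      · exact Sum.inl.inj h1
      · exact absurd h1 (by simp)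
    · rw [List.disjoint_left]
      intro e he he'
      obtain ⟨q, -, hq⟩ := List.mem_flatMap.1 he
      obtain ⟨p, j, h1, h2⟩ := (mem_layerList C G R P _ _ _ _).1 hq
      obtain ⟨v, -, hv⟩ := (mem_pendList C G R P _).1 he'
      have h := h2.symm.trans hv
      unfold edg at h
      rw [Sym2.eq_iff] at h
      rcases h with ⟨-, h1⟩ | ⟨h1, -⟩
      · exact absurd h1 (by simp)
      · exact absurd h1 (by simp)
  · intro e he
    rcases (mem_stream C G R P X e).1 he with ⟨i, p, j, τ, h1, h2⟩ | ⟨v, -, hv⟩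
    · obtain ⟨ha, hb⟩ := C.join_side _ _ _ _ h1.2.1
      rw [h2]
      intro h
      unfold edg at h
      rw [Sym2.mk_isDiag_iff] at h
      simp only [Sum.inl.injEq, Prod.mk.injEq] at h
      rw [h.2.1, hb] at ha
      exact absurd ha (by simp)
    · rw [hv]
      intro h
      rw [Sym2.mk_isDiag_iff] at h
      exact absurd h (by simp)

theorem stream_isBip [Fintype Pos] [Fintype Dir] [Fintype T] [Fintype Γ] (C : SMT.TCert T U N)
    (G : Geo Pos Dir (Fin N → ZMod D)) (R : SMT.TRoles N D U C.cell)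
    (P : Fin N → Dir) (X : Fin N → Γ → WW Pos Dir T N D Γ) :
    IsBip (stream C G R P X) := by
  refine ⟨fun v => Sum.elim (fun u : Vx Pos T Γ => C.left u.2.1)
    (fun u : Vx Pos T Γ => !(C.left u.2.1)) v, ?_⟩
  intro v w hvw
  rcases (mem_stream C G R P X _).1 hvw with ⟨i, p, j, τ, h1, h2⟩ | ⟨u, -, hu⟩
  · obtain ⟨ha, hb⟩ := C.join_side _ _ _ _ h1.2.1
    unfold edg at h2
    rw [Sym2.eq_iff] at h2
    rcases h2 with ⟨e1, e2⟩ | ⟨e1, e2⟩
    · subst e1 e2
      simp only [Sum.elim_inl, ha, hb]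
      simp
    · subst e1 e2
      simp only [Sum.elim_inl, ha, hb]
      simp
  · rw [Sym2.eq_iff] at hu
    rcases hu with ⟨e1, e2⟩ | ⟨e1, e2⟩
    · subst e1 e2
      simp
    · subst e1 e2
      simp

end SOS
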