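import Pool.Agent.SMG.TRF
import Pool.Agent.SOS.Defs

/-! TRF: transport of algorithms and streams along an embedding of the vertex set. (Compare
`Pool/Agent/SMG/TRF.lean`: `transfer`, `trf_runFrom`, `trf_nu`; for `≤` in `nu_map` pull back the
matching: every edge of the image stream has a unique preimage.) -/

namespace SOS

open SMG

theorem trf_run {V W : Type} {b : ℕ} (f : V ↪ W) (A : NAlg W b) (A' : NAlg V b)
    (hs : ∀ t m e, A'.step t m e = A.step t m (Sym2.map f e)) (σ : List (Sym2 V)) :
    ∀ (t : ℕ) (m : Fin (2 ^ b)), A'.runFrom t m σ = A.runFrom t m (σ.map (Sym2.map f)) := by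
  induction σ with
  | nil => intro t m; rfl
  | cons e l ih =>
    intro t m
    show A'.runFrom (t + 1) (A'.step t m e) l =
      A.runFrom (t + 1) (A.step t m (Sym2.map f e)) (l.map (Sym2.map f))
    rw [ih, hs]

theorem transfer {V W : Type} {b : ℕ} (f : V ↪ W) (A : NAlg W b) :
    ∃ A' : NAlg V b, ∀ σ : List (Sym2 V), A'.output σ = A.output (σ.map (Sym2.map f)) := by
  refine ⟨{ init := A.init
            step := fun t m e => A.step t m (Sym2.map f e)
            out := A.out }, fun σ => ?_⟩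
  unfold NAlg.output
  rw [trf_run f A _ (fun _ _ _ => rfl) σ 0 A.init, List.length_map]

theorem nu_map {V W : Type} (f : V ↪ W) (σ : List (Sym2 V)) :
    nu (σ.map (Sym2.map f)) = nu σ := by
  classical
  have hinj : Function.Injective (Sym2.map f) := Sym2.map.injective f.injective
  apply le_antisymm
  · obtain ⟨M, h1, h2, h3⟩ := nu_spec (σ.map (Sym2.map f))
    rw [← h3]
    have h4 : (M.preimage (Sym2.map f) (hinj.injOn)).card = M.card := by
      rw [Finset.card_preimage]
      congr 1
      rw [Finset.filter_eq_self]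
      intro e he
      obtain ⟨e₀, _, rfl⟩ := List.mem_map.1 (h1 e he)
      exact ⟨e₀, rfl⟩
    rw [← h4]
    refine le_nu _ _ ?_ ?_
    · intro e he
      obtain ⟨e₀, he₀, h5⟩ := List.mem_map.1 (h1 _ (Finset.mem_preimage.1 he))
      rw [← hinj h5]
      exact he₀
    · intro e he e' he' v hv hv'
      apply hinj
      exact h2 _ (Finset.mem_preimage.1 he) _ (Finset.mem_preimage.1 he') (f v)
        (Sym2.mem_map.2 ⟨v, hv, rfl⟩) (Sym2.mem_map.2 ⟨v, hv', rfl⟩)
  · obtain ⟨M, h1, h2, h3⟩ := nu_spec σ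
    have h4 : (M.image (Sym2.map f)).card = M.card :=
      Finset.card_image_of_injective _ hinj
    rw [← h3, ← h4]
    refine le_nu _ _ ?_ ?_
    · intro e he
      obtain ⟨e₀, he₀, rfl⟩ := Finset.mem_image.1 he
      exact List.mem_map.2 ⟨e₀, h1 e₀ he₀, rfl⟩
    · intro e he e' he' v hv hv'
      obtain ⟨e₀, he₀, rfl⟩ := Finset.mem_image.1 he
      obtain ⟨e₁, he₁, rfl⟩ := Finset.mem_image.1 he'
      obtain ⟨a, ha, hav⟩ := Sym2.mem_map.1 hv
      obtain ⟨a', ha', hav'⟩ := Sym2.mem_map.1 hv'
      have haa : a = a' := f.injective (hav.trans hav'.symm)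
      subst haa
      rw [h2 e₀ he₀ e₁ he₁ a ha ha']

end SOS
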