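import Pool.Agent.SOS.CORE
import Pool.Agent.SOS.MMX
import Pool.Agent.SOS.TRF
import Pool.Agent.SOS.NDP
import Pool.Agent.SMG.GEO
import Pool.Agent.SMT.ROL

/-! FIN: every certificate gives a lower bound for randomised one-pass algorithms with one-sided
error which output a number.

Compare `SMT.main` (`Pool/Agent/SMT/FIN.lean`). `W = 2 |T| J + 1`; `α' = min α 1` in `core`.
`E = {ω | ∀ P X, (output ≤ ν) on the image of stream C G R P X}` (first part), resp. with
`α ν ≤ output` (second part): measurable and almost sure since there are finitely many `(P, X)`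
(`MeasurableSet.iInter`, `ae_all_iff`; the types are finite). Then `minimax_ae`, `transfer`,
`nu_map`, `SMG.isStream_map`, `SMG.isBip_map`. -/

namespace SOS

open SMG Filter MeasureTheory

theorem main {T U : Type} [Fintype T] [Fintype U] [Nonempty U] {N : ℕ} (C : SMT.TCert T U N)
    (hh : 0 < C.h) (α : ℝ) (hα : (C.z : ℝ) < α * (C.z + C.h)) (δ : ℝ) (hδ : 0 < δ)
    (c : ℕ) (K : ℝ) :
    ∀ᶠ n : ℕ in atTop, ∀ b : ℕ, (b : ℝ) ≤ K * n * Real.log n ^ c →
      ∀ (Ω : Type) [MeasurableSpace Ω] (μ : Measure Ω) [IsProbabilityMeasure μ]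
        (A : Ω → NAlg (Fin n) b),
        (∀ σ, IsStream σ → MeasurableSet {ω | (A ω).output σ ≤ (nu σ : ℝ)} ∧
          MeasurableSet {ω | α * (nu σ : ℝ) ≤ (A ω).output σ}) →
        ((∀ σ, IsStream σ → IsBip σ → ∀ᵐ ω ∂μ, (A ω).output σ ≤ (nu σ : ℝ)) →
          ∃ σ : List (Sym2 (Fin n)), IsStream σ ∧ IsBip σ ∧
            μ {ω | α * (nu σ : ℝ) ≤ (A ω).output σ} ≤ ENNReal.ofReal δ) ∧
        ((∀ σ, IsStream σ → IsBip σ → ∀ᵐ ω ∂μ, α * (nu σ : ℝ) ≤ (A ω).output σ) →
          ∃ σ : List (Sym2 (Fin n)), IsStream σ ∧ IsBip σ ∧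
            μ {ω | (A ω).output σ ≤ (nu σ : ℝ)} ≤ ENNReal.ofReal δ) := by
  classical
  obtain ⟨D, hD, ⟨R⟩⟩ := SMT.exists_roles N U C.cell C.cell_zero C.cell_mono
  have hN : 0 < N := by
    obtain ⟨m, hm⟩ := Finset.card_pos.1 hh
    obtain ⟨-, -, i, hi, -⟩ := C.M_spec m hm
    omega
  have hhR : (0 : ℝ) < C.h := by exact_mod_cast hh
  have hzR : (0 : ℝ) ≤ C.z := Nat.cast_nonneg _
  set α' : ℝ := min α 1 with hα'def
  have hα' : (C.z : ℝ) < α' * (C.z + C.h) := by
    rcases min_choice α 1 with h | h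
    · rw [hα'def, h]; exact hα
    · rw [hα'def, h]; linarith
  have hα'0 : 0 ≤ α' := by
    by_contra hneg
    push Not at hneg
    have : α' * (C.z + C.h) < 0 := mul_neg_of_neg_of_pos hneg (by linarith)
    linarith
  have _hNZ : NeZero D := ⟨hD.ne'⟩
  obtain ⟨J, hJ, κ, hκ, c₀, hc₀, hcore⟩ := core hN C R α' δ hα' (min_le_right _ _) hδ
  set W : ℕ := 2 * Fintype.card T * J + 1 with hW
  have hWpos : 0 < W := by omega
  have hWR : (0 : ℝ) < W := by exact_mod_cast hWpos
  set K' : ℝ := (2 * W * |K| + 1) / c₀ with hK'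
  have hev1 : ∀ᶠ n : ℕ in atTop, (1 : ℝ) ≤ Real.log n := by
    have := (Real.tendsto_log_atTop.comp tendsto_natCast_atTop_atTop).eventually_ge_atTop 1
    simpa using this
  have hev2 : ∀ᶠ n : ℕ in atTop, (2 * W / c₀ : ℝ) ≤ n :=
    tendsto_natCast_atTop_atTop.eventually_ge_atTop _
  filter_upwards [exists_geo N D W c hD hWpos κ K' hκ, hev1, hev2] with n hgeo hlog hn
  intro b hb Ω _ μ _ A hmeas
  obtain ⟨Pos, Dir, _, _, G, hgood, hn1, hn2, hdir⟩ := hgeo
  have hlogc : (1 : ℝ) ≤ Real.log n ^ c := one_le_pow₀ hlog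
  have hn2R : (n : ℝ) ≤ 2 * W * (Nat.card Pos : ℝ) := by exact_mod_cast hn2
  have hK'0 : 0 ≤ K' := by positivity
  have hposR : (1 / c₀ : ℝ) ≤ (Nat.card Pos : ℝ) := by
    have h1 : (2 * W / c₀ : ℝ) ≤ 2 * W * (Nat.card Pos : ℝ) := hn.trans hn2R
    have h2 : (2 * W : ℝ) * (1 / c₀) ≤ 2 * W * (Nat.card Pos : ℝ) := by
      calc (2 * W : ℝ) * (1 / c₀) = 2 * W / c₀ := by ring
        _ ≤ _ := h1
    exact le_of_mul_le_mul_left h2 (by positivity)
  have hdirR : (1 / c₀ : ℝ) ≤ (Nat.card Dir : ℝ) := by
    calc (1 / c₀ : ℝ) ≤ K' := by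
          rw [hK']
          gcongr
          have : 0 ≤ 2 * (W : ℝ) * |K| := by positivity
          linarith
      _ ≤ K' * Real.log n ^ c := le_mul_of_one_le_right hK'0 hlogc
      _ ≤ _ := hdir
  have hbR : (b : ℝ) ≤ c₀ * Nat.card Pos * Nat.card Dir := by
    have hposn : (0 : ℝ) ≤ Nat.card Pos := Nat.cast_nonneg _
    calc (b : ℝ) ≤ K * n * Real.log n ^ c := hb
      _ ≤ |K| * n * Real.log n ^ c := by
          gcongr
          exact le_abs_self K
      _ ≤ |K| * (2 * W * (Nat.card Pos : ℝ)) * Real.log n ^ c := by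
          gcongr
      _ = (2 * W * |K|) * Real.log n ^ c * Nat.card Pos := by ring
      _ ≤ (c₀ * K') * Real.log n ^ c * Nat.card Pos := by
          have : c₀ * K' = 2 * W * |K| + 1 := by
            rw [hK']
            field_simp
          rw [this]
          gcongr
          linarith
      _ = c₀ * Nat.card Pos * (K' * Real.log n ^ c) := by ring
      _ ≤ c₀ * Nat.card Pos * Nat.card Dir := by
          gcongr
  have hcore' := hcore Pos Dir G b hgood hbR hposR hdirR
  -- the vertex set embeds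
  have hcard : Fintype.card (VV Pos T (ZMod J)) ≤ Fintype.card (Fin n) := by
    rw [Fintype.card_fin]
    refine le_trans ?_ hn1
    rw [Nat.card_eq_fintype_card, hW]
    simp only [VV, Vx, Fintype.card_sum, Fintype.card_prod, ZMod.card]
    nlinarith [Nat.zero_le (Fintype.card Pos)]
  obtain ⟨f⟩ : Nonempty (VV Pos T (ZMod J) ↪ Fin n) :=
    Function.Embedding.nonempty_of_card_le hcard
  -- the parameter space is nonempty
  have hDirne : Nonempty Dir := by
    have : (0 : ℝ) < (Nat.card Dir : ℝ) := lt_of_lt_of_le (by positivity) hdirR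
    have h1 : 0 < Nat.card Dir := by exact_mod_cast this
    exact (Nat.card_pos_iff.1 h1).1
  have _inst : Fintype (Par Pos Dir T N D (ZMod J)) := Fintype.ofFinite _
  have hΘ : Nonempty (Par Pos Dir T N D (ZMod J)) := ⟨(fun _ => hDirne.some, fun _ _ => 0)⟩
  have hstr : ∀ (P : Fin N → Dir) (X : Fin N → ZMod J → WW Pos Dir T N D (ZMod J)),
      IsStream ((stream C G R P X).map (Sym2.map f)) :=
    fun P X => isStream_map f _ (stream_isStream C G R P X)
  have hbip : ∀ (P : Fin N → Dir) (X : Fin N → ZMod J → WW Pos Dir T N D (ZMod J)),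
      IsBip ((stream C G R P X).map (Sym2.map f)) :=
    fun P X => isBip_map f _ (stream_isBip C G R P X)
  have hfinP : Finite (Fin N → Dir) := inferInstance
  have hfinX : Finite (Fin N → ZMod J → WW Pos Dir T N D (ZMod J)) := inferInstance
  have hmono : ∀ x : ℝ, 0 ≤ x → α' * x ≤ α * x := fun x hx =>
    mul_le_mul_of_nonneg_right (min_le_left _ _) hx
  constructor
  · intro hae
    obtain ⟨θ, hθ⟩ := minimax_ae μ
      (fun θ : Par Pos Dir T N D (ZMod J) =>
        {ω | α * (nu ((stream C G R θ.1 (canon id θ.2)).map (Sym2.map f)) : ℝ) ≤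
          (A ω).output ((stream C G R θ.1 (canon id θ.2)).map (Sym2.map f))})
      (fun θ => (hmeas _ (hstr θ.1 _)).2)
      (⋂ (P : Fin N → Dir), ⋂ (X : Fin N → ZMod J → WW Pos Dir T N D (ZMod J)),
        {ω | (A ω).output ((stream C G R P X).map (Sym2.map f)) ≤
          (nu ((stream C G R P X).map (Sym2.map f)) : ℝ)})
      (MeasurableSet.iInter fun P => MeasurableSet.iInter fun X => (hmeas _ (hstr P X)).1)
      (by
        have h1 : ∀ᵐ ω ∂μ, ∀ (P : Fin N → Dir),
            ∀ (X : Fin N → ZMod J → WW Pos Dir T N D (ZMod J)),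
            (A ω).output ((stream C G R P X).map (Sym2.map f)) ≤
              (nu ((stream C G R P X).map (Sym2.map f)) : ℝ) :=
          ae_all_iff.2 fun P => ae_all_iff.2 fun X => hae _ (hstr P X) (hbip P X)
        filter_upwards [h1] with ω hω
        simp only [Set.mem_iInter, Set.mem_ofPred_eq]
        exact hω)
      δ hδ.le (by
        intro ω hω
        simp only [Set.mem_iInter, Set.mem_ofPred_eq] at hω
        obtain ⟨A', hA'⟩ := transfer f (A ω)
        refine le_trans ?_ ((hcore' A').1 (by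
          intro P X
          rw [hA', ← nu_map f]
          exact hω P X))
        have hle : Nat.card {θ : Par Pos Dir T N D (ZMod J) // ω ∈
              {ω | α * (nu ((stream C G R θ.1 (canon id θ.2)).map (Sym2.map f)) : ℝ) ≤
                (A ω).output ((stream C G R θ.1 (canon id θ.2)).map (Sym2.map f))}} ≤
            Nat.card {θ : Par Pos Dir T N D (ZMod J) //
              α' * (nu (stream C G R θ.1 (canon id θ.2)) : ℝ) ≤
                A'.output (stream C G R θ.1 (canon id θ.2))} := by
          refine Nat.card_le_card_of_injective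
            (fun s => ⟨s.1, ?_⟩) ?_
          · have hs : α * (nu ((stream C G R s.1.1 (canon id s.1.2)).map (Sym2.map f)) : ℝ) ≤
                (A ω).output ((stream C G R s.1.1 (canon id s.1.2)).map (Sym2.map f)) := s.2
            rw [nu_map] at hs
            rw [hA']
            exact (hmono _ (Nat.cast_nonneg _)).trans hs
          · intro s t hst
            exact Subtype.ext (congrArg (fun q => q.1) hst)
        exact_mod_cast hle)
    exact ⟨_, hstr θ.1 _, hbip θ.1 _, hθ⟩
  · intro hae
    obtain ⟨θ, hθ⟩ := minimax_ae μ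
      (fun θ : Par Pos Dir T N D (ZMod J) =>
        {ω | (A ω).output ((stream C G R θ.1 (canon (fun _ => 0) θ.2)).map (Sym2.map f)) ≤
          (nu ((stream C G R θ.1 (canon (fun _ => 0) θ.2)).map (Sym2.map f)) : ℝ)})
      (fun θ => (hmeas _ (hstr θ.1 _)).1)
      (⋂ (P : Fin N → Dir), ⋂ (X : Fin N → ZMod J → WW Pos Dir T N D (ZMod J)),
        {ω | α * (nu ((stream C G R P X).map (Sym2.map f)) : ℝ) ≤
          (A ω).output ((stream C G R P X).map (Sym2.map f))})
      (MeasurableSet.iInter fun P => MeasurableSet.iInter fun X => (hmeas _ (hstr P X)).2)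
      (by
        have h1 : ∀ᵐ ω ∂μ, ∀ (P : Fin N → Dir),
            ∀ (X : Fin N → ZMod J → WW Pos Dir T N D (ZMod J)),
            α * (nu ((stream C G R P X).map (Sym2.map f)) : ℝ) ≤
              (A ω).output ((stream C G R P X).map (Sym2.map f)) :=
          ae_all_iff.2 fun P => ae_all_iff.2 fun X => hae _ (hstr P X) (hbip P X)
        filter_upwards [h1] with ω hω
        simp only [Set.mem_iInter, Set.mem_ofPred_eq]
        exact hω)
      δ hδ.le (by
        intro ω hω
        simp only [Set.mem_iInter, Set.mem_ofPred_eq] at hω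
        obtain ⟨A', hA'⟩ := transfer f (A ω)
        refine le_trans ?_ ((hcore' A').2 (by
          intro P X
          rw [hA', ← nu_map f]
          exact (hmono _ (Nat.cast_nonneg _)).trans (hω P X)))
        have hle : Nat.card {θ : Par Pos Dir T N D (ZMod J) // ω ∈
              {ω | (A ω).output ((stream C G R θ.1 (canon (fun _ => 0) θ.2)).map (Sym2.map f)) ≤
                (nu ((stream C G R θ.1 (canon (fun _ => 0) θ.2)).map (Sym2.map f)) : ℝ)}} ≤
            Nat.card {θ : Par Pos Dir T N D (ZMod J) //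
              A'.output (stream C G R θ.1 (canon (fun _ => 0) θ.2)) ≤
                (nu (stream C G R θ.1 (canon (fun _ => 0) θ.2)) : ℝ)} := by
          refine Nat.card_le_card_of_injective
            (fun s => ⟨s.1, ?_⟩) ?_
          · have hs : (A ω).output
                ((stream C G R s.1.1 (canon (fun _ => 0) s.1.2)).map (Sym2.map f)) ≤
                (nu ((stream C G R s.1.1 (canon (fun _ => 0) s.1.2)).map (Sym2.map f)) : ℝ) := s.2
            rw [nu_map] at hs
            rw [hA']
            exact hs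
          · intro s t hst
            exact Subtype.ext (congrArg (fun q => q.1) hst)
        exact_mod_cast hle)
    exact ⟨_, hstr θ.1 _, hbip θ.1 _, hθ⟩

end SOS
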