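import Pool.Agent.SOS.Defs

/-! PCK: properties of `pick`. Unfold and split the `if`. -/

namespace SOS

theorem pick_dist {ι Γ St : Type} [Fintype ι] [DecidableEq Γ] (F : (ι → Γ) → St)
    (y y' : ι → Γ) (ρ : ℕ) : hammingDist (pick F y y' ρ) y' ≤ ρ := by
  unfold pick
  split_ifs with h
  · exact h.choose_spec.2
  · simp

theorem pick_eq {ι Γ St : Type} [Fintype ι] [DecidableEq Γ] (F : (ι → Γ) → St)
    (y y' : ι → Γ) (ρ : ℕ) (h : ∃ z, F z = F y ∧ hammingDist z y' ≤ ρ) :
    F (pick F y y' ρ) = F y := by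
  unfold pick
  rw [dif_pos h]
  exact h.choose_spec.1

end SOS
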