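import Pool.Agent.SOS.RUN
import Pool.Agent.SOS.LAY
import Pool.Agent.SOS.PCK

/-! OEQ: if all layers collide then the two streams have the same output.

`run_blocks` with `f q = layerList .. (canon c Y q.1 q.2)`, `g q = layerList .. (colX .. q.1 q.2)`;
the hypothesis of `run_blocks` is `pick_eq` with `F = after .. q`. Then `runFrom_append` for the
pendants and `stream_length`. -/

namespace SOS

open SMG

theorem output_eq {Pos Dir T U Γ : Type} {N D : ℕ} [Fintype Pos] [Fintype Dir] [Fintype T]
    [Fintype Γ] [Add Γ] [DecidableEq Γ] [NeZero D] (C : SMT.TCert T U N)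
    (G : Geo Pos Dir (Fin N → ZMod D)) (R : SMT.TRoles N D U C.cell) {b : ℕ}
    (A : NAlg (VV Pos T Γ) b) (c c' : Γ → Γ) (ρ : ℕ) (P : Fin N → Dir)
    (Y : Fin N → WW Pos Dir T N D Γ) (h : ∀ q, Coll C G R A c c' ρ P Y q) :
    A.output (stream C G R P (colX C G R A c c' ρ P Y)) =
      A.output (stream C G R P (canon c Y)) := by
  have key : A.runFrom 0 A.init ((LL N Γ).flatMap (fun q => layerList C G R P (q.1 : ℕ) q.2
        (colX C G R A c c' ρ P Y q.1 q.2))) =
      A.runFrom 0 A.init ((LL N Γ).flatMap (fun q => layerList C G R P (q.1 : ℕ) q.2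
        (canon c Y q.1 q.2))) := by
    apply run_blocks A (LL N Γ) (nodup_LL N Γ)
    · intro q
      exact layerList_length C G R P (q.1 : ℕ) q.2 _ _
    · intro q _
      have h1 := pick_eq (after C G R A P (canon c Y) (q.1, q.2)) (canon c Y q.1 q.2)
        (canon c' Y q.1 q.2) ρ (h q)
      have h2 : ∀ (d : (q' : Fin N × Γ) → Decidable (q' ≠ q)),
          ((LL N Γ).takeWhile (fun q' => @decide (q' ≠ q) (d q'))).flatMap
            (fun q' => layerList C G R P (q'.1 : ℕ) q'.2 (canon c Y q'.1 q'.2)) =
          before C G R P (canon c Y) q := by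
        intro d
        unfold before
        congr 2
        funext q'
        exact decide_eq_decide.mpr Iff.rfl
      have h3 := h2 (fun q' => @instDecidableNot (q' = q) (Classical.propDecidable _))
      rw [h3]
      exact h1
  have hlen : ((LL N Γ).flatMap (fun q => layerList C G R P (q.1 : ℕ) q.2
        (colX C G R A c c' ρ P Y q.1 q.2))).length =
      ((LL N Γ).flatMap (fun q => layerList C G R P (q.1 : ℕ) q.2
        (canon c Y q.1 q.2))).length := by
    rw [List.length_flatMap, List.length_flatMap]
    congr 1
    exact List.map_congr_left fun q _ => layerList_length C G R P (q.1 : ℕ) q.2 _ _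
  unfold NAlg.output
  rw [stream_length C G R P _ (canon c Y)]
  unfold stream
  rw [runFrom_append, runFrom_append, key, hlen]

end SOS
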