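import Pool.Agent.SOS.FIN
import Pool.Agent.STG.EXC

/-! RES: the theorem. -/

namespace SOS

open SMG Filter MeasureTheory

theorem lower_bound (α δ K : ℝ) (c : ℕ) (hα : 1 / 2 < α) (hδ : 0 < δ) :
    ∀ᶠ n : ℕ in atTop, ∀ b : ℕ, (b : ℝ) ≤ K * n * Real.log n ^ c →
      ∀ (Ω : Type) [MeasurableSpace Ω] (μ : Measure Ω) [IsProbabilityMeasure μ]
        (A : Ω → NAlg (Fin n) b),
        (∀ σ, IsStream σ → MeasurableSet {ω | (A ω).output σ ≤ (nu σ : ℝ)} ∧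
          MeasurableSet {ω | α * (nu σ : ℝ) ≤ (A ω).output σ}) →
        ((∀ σ, IsStream σ → IsBip σ → ∀ᵐ ω ∂μ, (A ω).output σ ≤ (nu σ : ℝ)) →
          ∃ σ : List (Sym2 (Fin n)), IsStream σ ∧ IsBip σ ∧
            μ {ω | α * (nu σ : ℝ) ≤ (A ω).output σ} ≤ ENNReal.ofReal δ) ∧
        ((∀ σ, IsStream σ → IsBip σ → ∀ᵐ ω ∂μ, α * (nu σ : ℝ) ≤ (A ω).output σ) →
          ∃ σ : List (Sym2 (Fin n)), IsStream σ ∧ IsBip σ ∧
            μ {ω | (A ω).output σ ≤ (nu σ : ℝ)} ≤ ENNReal.ofReal δ) := by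
  obtain ⟨T, U, _, _, _, N, C, hh, hC⟩ := STG.exists_cert α hα
  exact main C hh α hC δ hδ c K

end SOS
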