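import Pool.Agent.SOS.Defs

/-! RUN: runs over concatenated lists, and over lists of blocks.

`run_blocks`: induction on `L` from the right (`List.reverseRecOn` / `List.reverseRec`): for
`L = L' ++ [q]` (nodup) the prefixes of the elements of `L'` are the same in `L` and `L'`
(`List.takeWhile_append_of_pos` fails; use `List.takeWhile_append` and that `q' ∈ L'` stops), and the
prefix of `q` is `L'`. -/

namespace SOS

theorem runFrom_append {V : Type} {b : ℕ} (A : NAlg V b) (t : ℕ) (m : Fin (2 ^ b))
    (l₁ l₂ : List (Sym2 V)) :
    A.runFrom t m (l₁ ++ l₂) = A.runFrom (t + l₁.length) (A.runFrom t m l₁) l₂ := by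
  induction l₁ generalizing t m with
  | nil => simp [NAlg.runFrom]
  | cons e l ih =>
    simp only [List.cons_append, NAlg.runFrom, List.length_cons]
    rw [ih]
    congr 1
    omega

theorem length_flatMap_eq_aux {V κ : Type} (L : List κ) (f g : κ → List V)
    (hlen : ∀ q, (f q).length = (g q).length) :
    (L.flatMap g).length = (L.flatMap f).length := by
  induction L with
  | nil => simp
  | cons q L ih => simp [ih, hlen q]

open Classical in
theorem takeWhile_mem_append_aux {κ : Type} (L : List κ) (q q' : κ) (hq' : q' ∈ L) :
    ((L ++ [q]).takeWhile (fun x => x ≠ q')) = L.takeWhile (fun x => x ≠ q') := by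
  induction L with
  | nil => simp at hq'
  | cons a L ih =>
    by_cases h : a = q'
    · subst h
      simp
    · have h2 : q' ∈ L := by
        rcases List.mem_cons.1 hq' with h3 | h3
        · exact absurd h3.symm h
        · exact h3
      simp only [List.cons_append]
      rw [List.takeWhile_cons, List.takeWhile_cons]
      simp only [ne_eq, h, not_false_eq_true, decide_true, if_true]
      congr 1
      exact ih h2

open Classical in
theorem takeWhile_last_aux {κ : Type} (L : List κ) (q : κ) (hq : q ∉ L) :
    ((L ++ [q]).takeWhile (fun x => x ≠ q)) = L := by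
  induction L with
  | nil => simp
  | cons a L ih =>
    have h1 : a ≠ q := fun h => hq (by simp [h])
    have h2 : q ∉ L := fun h => hq (by simp [h])
    simp only [List.cons_append]
    rw [List.takeWhile_cons]
    simp only [ne_eq, h1, not_false_eq_true, decide_true, if_true]
    congr 1
    exact ih h2

open Classical in
theorem run_blocks {V κ : Type} {b : ℕ} (A : NAlg V b) (L : List κ) (hL : L.Nodup)
    (f g : κ → List (Sym2 V)) (hlen : ∀ q, (f q).length = (g q).length)
    (h : ∀ q ∈ L,
      A.runFrom ((L.takeWhile (fun q' => q' ≠ q)).flatMap f).length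
        (A.runFrom 0 A.init ((L.takeWhile (fun q' => q' ≠ q)).flatMap f)) (g q) =
      A.runFrom ((L.takeWhile (fun q' => q' ≠ q)).flatMap f).length
        (A.runFrom 0 A.init ((L.takeWhile (fun q' => q' ≠ q)).flatMap f)) (f q)) :
    A.runFrom 0 A.init (L.flatMap g) = A.runFrom 0 A.init (L.flatMap f) := by
  induction L using List.reverseRecOn with
  | nil => rfl
  | append_singleton L q ih =>
    have hq : q ∉ L := by
      intro hq
      have := List.nodup_append.1 hL
      exact this.2.2 q hq q (by simp) rfl
    have hL' : L.Nodup := (List.nodup_append.1 hL).1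
    have ih' := ih hL' (by
      intro q' hq'
      have h1 := h q' (by simp [hq'])
      rw [takeWhile_mem_append_aux L q q' hq'] at h1
      exact h1)
    have h2 := h q (by simp)
    rw [takeWhile_last_aux L q hq] at h2
    rw [List.flatMap_append, List.flatMap_append, runFrom_append, runFrom_append, ih',
      length_flatMap_eq_aux L f g hlen]
    simp only [List.flatMap_cons, List.flatMap_nil, List.append_nil, Nat.zero_add]
    exact h2

end SOS
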