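import Pool.Agent.SOS.COV
import Pool.Agent.SMG.COV
import Pool.Agent.SMG.RUN

/-! UPP: if the letters (nearly) do not depend on the copy, the maximum matching is small.

Vertex cover: the closed vertices; for `i ≤ l` and each key `k = (x, a, r, b)` the hub
`(x', b, Y i (P l, k))` where `x'` is the position in the block of `x` with `arc = r`
(`(G.arc_ex (P l) x r).choose`; it is `j.2.1` for a slot `j` by `G.arc_inj`), and for each pair
`(τ, k)` of the noise the left end `(x, a, τ)`. Then `SMG.nu_spec` and `SMG.match_cover`. -/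

namespace SOS

open SMG

theorem upper {Pos Dir T U Γ : Type} {N D : ℕ} [Fintype Pos] [Fintype Dir] [Fintype T] [Fintype Γ]
    [NeZero D] (C : SMT.TCert T U N)
    (G : Geo Pos Dir (Fin N → ZMod D)) (R : SMT.TRoles N D U C.cell)
    (P : Fin N → Dir) (X : Fin N → Γ → WW Pos Dir T N D Γ) (Y : Fin N → WW Pos Dir T N D Γ)
    (B : ℕ) (hB : ∀ i l : Fin N, i ≤ l → noise (X i) (fun _ => Y i) (P l) ≤ B) :
    nu (stream C G R P X) ≤ (Zset (Γ := Γ) C G R P).card + N ^ 2 * Nat.card (KK Pos T N D) +
      N ^ 2 * B := by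
  classical
  obtain ⟨M, h1, h2, h3⟩ := nu_spec (stream C G R P X)
  rw [← h3]
  -- the hubs and the noisy left ends of a pair of phases
  let hub : Fin N × Fin N → KK Pos T N D → VV Pos T Γ := fun s k =>
    Sum.inl ((G.arc_ex (P s.2) k.1 k.2.2.1).choose, k.2.2.2, Y s.1 (P s.2, k))
  let bad : Fin N × Fin N → Finset (Γ × KK Pos T N D) := fun s =>
    Finset.univ.filter (fun q => X s.1 q.1 (P s.2, q.2) ≠ Y s.1 (P s.2, q.2))
  let lft : Γ × KK Pos T N D → VV Pos T Γ := fun q => Sum.inl (q.2.1, q.2.2.1, q.1)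
  let S : Finset (Fin N × Fin N) := Finset.univ.filter (fun s => s.1 ≤ s.2)
  let H : Fin N × Fin N → Finset (VV Pos T Γ) := fun s =>
    (Finset.univ : Finset (KK Pos T N D)).image (hub s) ∪ (bad s).image lft
  let Z' : Finset (VV Pos T Γ) :=
    (Zset (Γ := Γ) C G R P).image Sum.inl ∪ S.biUnion H
  have hcov : ∀ e ∈ M, ∃ v ∈ Z', v ∈ e := by
    intro e he
    rcases cover C G R P X e (h1 e he) with ⟨v, hv, hve⟩ | ⟨i, l, j, τ, hil, hs, rfl⟩
    · exact ⟨Sum.inl v, Finset.mem_union_left _ (Finset.mem_image_of_mem _ hv), hve⟩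
    · have hS : (i, l) ∈ S := Finset.mem_filter.2 ⟨Finset.mem_univ _, hil⟩
      by_cases hx : X i τ (P l, key G (P l) j) = Y i (P l, key G (P l) j)
      · refine ⟨hub (i, l) (key G (P l) j), Finset.mem_union_right _
          (Finset.mem_biUnion.2 ⟨(i, l), hS, Finset.mem_union_left _
            (Finset.mem_image_of_mem _ (Finset.mem_univ _))⟩), ?_⟩
        have hc := (G.arc_ex (P l) j.1.1 (G.arc (P l) j.2.1)).choose_spec
        have hx' : (G.arc_ex (P l) j.1.1 (G.arc (P l) j.2.1)).choose = j.2.1 := by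
          refine G.arc_inj (P l) j.2.1 _ ?_ hc.2
          rw [hc.1]
          exact hs.2.2.2.2
        have hh : hub (i, l) (key G (P l) j) =
            Sum.inl (j.2.1, j.2.2, Y i (P l, key G (P l) j)) := by
          simp only [hub, key]
          rw [hx']
        rw [hh, ← hx]
        exact Sym2.mem_mk_right _ _
      · refine ⟨lft (τ, key G (P l) j), Finset.mem_union_right _
          (Finset.mem_biUnion.2 ⟨(i, l), hS, Finset.mem_union_right _
            (Finset.mem_image_of_mem _ (Finset.mem_filter.2 ⟨Finset.mem_univ _, hx⟩))⟩), ?_⟩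
        exact Sym2.mem_mk_left _ _
  refine (match_cover Z' M h2 hcov).trans ?_
  have hH : ∀ s ∈ S, (H s).card ≤ Nat.card (KK Pos T N D) + B := by
    intro s hs
    refine (Finset.card_union_le _ _).trans (Nat.add_le_add ?_ ?_)
    · refine Finset.card_image_le.trans ?_
      rw [Nat.card_eq_fintype_card, Finset.card_univ]
    · refine Finset.card_image_le.trans ?_
      have h4 := hB s.1 s.2 (Finset.mem_filter.1 hs).2
      have h5 : (bad s).card = noise (X s.1) (fun _ => Y s.1) (P s.2) := by
        simp only [noise, bad]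
        rw [Nat.card_eq_fintype_card, Fintype.card_subtype]
      rw [h5]
      exact h4
  have hS2 : S.card ≤ N ^ 2 := by
    refine (Finset.card_filter_le _ _).trans ?_
    simp [sq]
  calc Z'.card ≤ ((Zset (Γ := Γ) C G R P).image Sum.inl).card + (S.biUnion H).card :=
        Finset.card_union_le _ _
    _ ≤ (Zset (Γ := Γ) C G R P).card + S.card * (Nat.card (KK Pos T N D) + B) := by
        refine Nat.add_le_add Finset.card_image_le ?_
        refine Finset.card_biUnion_le.trans ?_
        refine (Finset.sum_le_card_nsmul _ _ _ hH).trans ?_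
        rw [smul_eq_mul]
    _ ≤ (Zset (Γ := Γ) C G R P).card + N ^ 2 * (Nat.card (KK Pos T N D) + B) :=
        Nat.add_le_add_left (Nat.mul_le_mul_right _ hS2) _
    _ = _ := by ring

end SOS
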